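import Pool.Agent.H859.AL.Seq

/-!
# Zero-cycles on curves over global function fields: the whole local-global complex is exact for
# almost all hyperelliptic curves after bounded quadratic twists, over all layers of a given tower

Let `k` be any finite field of odd characteristic, `q` the number of its elements, `K = k(t)`, and let
`1 ≤ g_1, ..., g_r ≤ G`. Let `L_0 ⊆ L_1 ⊆ L_2 ⊆ ...` be a tower of finite Galois extensions of `K` of 2-power
degrees (with any constants and any ramification, of any length), and `m ≠ 0` a polynomial which is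
divisible by the primes of `k[t]` which are ramified in the tower. For each `j` a residue class `f₁_j` modulo
`m ^ 2` is given; `f₁_j` is monic of degree `2 g_j + 1`, irreducible modulo the primes which are ramified in
the tower, and its discriminant is not divisible by the square of a prime divisor of `m`. Let `F_N` be the
set of the `r`-tuples of polynomials `f_j(x) = x ^ (2 g_j + 1) + ∑ f_(j,i) x ^ i` over `k[t]` with
`deg f_(j,i) ≤ 2 N (2 g_j + 1 - i)` for which, for all `j`,

* the polynomial over `k` with the coefficients of `t ^ (2 N (2 g_j + 1 - i))` in the `f_(j,i)` is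
  irreducible;
* the discriminant of `f_j` is squarefree;
* `f_j` is congruent to `f₁_j` modulo `m ^ 2`.

This is a family of positive density among all the tuples of monic polynomials of the given height. For a
finite set `T` of primes of `k[t]` and `f` let `C(f, T)` be the class of the finite Galois extensions `M` of
`K` of 2-power degree in which all `Q ∈ T` split completely and in which only such primes of `k[t]` are
ramified modulo which `f` is irreducible (there is no condition at infinity; the class contains the
constant extensions of 2-power degree in which the `Q ∈ T` split and infinitely many ramified quadratic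
extensions, and it is closed under composita).

Theorem. There is ONE constant `C` (depending on `k`, the `g_j`, `m`, the `f₁_j`, not on the layer) such that
for ALL the layers `L_i` of the tower and EVERY finite set `T` of primes `Q` of `k[t]` which split completely
in `L_i` (there are infinitely many), `q ^ (deg Q) ≥ 4 G + 3`, the following holds. The field `L_i` belongs to
`C(f_j, T)` for all `j` and all the tuples in `F_N`, and for all large `N`, for all but at most
`C (1 - 1 / (32 G)) ^ |T|` times the number of the tuples in `F_N`, there are divisors `D_1, ..., D_r` of the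
product of the primes in `T` such that for ALL the fields `M` which belong to all the classes `C(f_j, T)`,
ALL the fields `E` between `K` and `M` and all `j` multiplication by two is bijective on `J_j(E)`, and all
classes of 2-power order in the Tate-Shafarevich group of `J_j` over `E` are zero, even without conditions at
the places over infinity. Here `J_j` is the Jacobian of the curve
`X_j : y ^ 2 = D_j ^ (2 g_j + 1) f_j(x / D_j)`.

Consequences for the problem. Let `E` be such a field; it is a global field. By Tate and Milne (the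
Jacobian of a curve over a global function field; Kato and Trihan for all abelian varieties) the whole
Tate-Shafarevich group of `J_j` over `E` is finite as soon as its 2-primary part is. So by the last item of
what the problem lists as known the complex of the problem is exact (the WHOLE complex, with all primes,
the characteristic included) for the curves `X_j` over all these fields `E`, so Q1 holds for them. More
generally it holds for all smooth projective geometrically integral curves `X` over `E` with Jacobian
isogenous over `E` to a factor of a product of the `J_j`, of any genus (for example for those which are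
dominated by an `X_j`, or by `X` of the form `y ^ 2 = F(x ^ 2)` if the two quotients of genus `≥ 1` are among
the `X_j`): finiteness of the Tate-Shafarevich group is invariant under isogenies and passes to factors.
In particular for each layer `L_i` the curves to which this does not apply over `L_i` with any of the twists
have upper density `0` in `F_N`, with one and the same exponential bound in the number of the
primes used for all the layers. Only those steps that are named here (Tate, Milne, Kato and Trihan, and the
exact sequence for curves, which is the item of the problem) are not formalized.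

Here `J(E)` is given as the Picard group of the affine coordinate ring `E[x, y] / (y ^ 2 - F)` (the curve
has one point at infinity, which is rational), and the Tate-Shafarevich group is defined by continuous
cocycles on the absolute Galois group with values in `J` of the separable closure.

What was known. For the curves of genus `≥ 1` over global fields Q1 is known if and only if the
Tate-Shafarevich group is known to be finite, which over function fields was known for isotrivial curves
and for Jacobians dominated by products of curves (Tate, Milne, Ulmer), which have density `0`, and, from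
this run, for positive proportions of curves without a twist (over a class of fields depending on the curve)
and for 100 percent of families of curves after a small twist. The engine is that of my
`MP_60d5ce_nt.SmallTwistOfAlmostAll`. New here: for function fields the uniformity in the layers of a tower
given first (one constant for all layers and all sets `T`), the class of fields `C(f_j, T)` common to all
`j`, all `r` and all genera. The siblings on the Tate conjecture for varieties over `k` are
`MP_8ac872_ag.FibreProductsOverGivenCover` (one field `M₀` given) and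
`MP_89bcae_ag.FibreProductsInTowers` (a tower, without a rate). The counterpart over number fields is
`MP_f80667_ag.AlmostAllCurves` (2-primary part of the complex).
-/

set_option autoImplicit false
set_option linter.all false

namespace Pool.Agent.Results.MP_bd895b_nt.CurvesInTowersOfCovers

open Polynomial Filter IsDedekindDomain Topology
open Pool.Agent.N874.Jac (UniquelyTwoDivisible ShaTwoTrivial)
open scoped Classical

/-- The monic polynomials of degree `2 g + 1` over `k[t]` and height at most `2 N`. -/
def Polynomials (k : Type) [Field k] (g N : ℕ) : Set k[X][X] :=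
  {f | f.Monic ∧ f.natDegree = 2 * g + 1 ∧
    ∀ j ≤ 2 * g, (f.coeff j).natDegree ≤ 2 * N * (2 * g + 1 - j)}

/-- The reduction at infinity of `f`. -/
noncomputable def atInfinity {k : Type} [Field k] (g N : ℕ) (f : k[X][X]) : k[X] :=
  X ^ (2 * g + 1) + ∑ j ∈ Finset.range (2 * g + 1),
    C ((f.coeff j).coeff (2 * N * (2 * g + 1 - j))) * X ^ j

/-- The curves `y ^ 2 = f(x)` over `k(t)`: `f` is irreducible at infinity, with squarefree discriminant, congruent
to `f₁` modulo `m ^ 2`. -/
def Family {k : Type} [Field k] (g : ℕ) (m : k[X]) (f₁ : k[X][X]) (N : ℕ) : Set k[X][X] :=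
  {f ∈ Polynomials k g N | Irreducible (atInfinity g N f) ∧ Squarefree f.discr ∧
    ∀ j, m ^ 2 ∣ f.coeff j - f₁.coeff j}

/-- All `r`-tuples of monic polynomials of the degrees `2 g_j + 1` and height at most `2 N`. -/
def AllTuples (k : Type) [Field k] {r : ℕ} (g : Fin r → ℕ) (N : ℕ) : Set (Fin r → k[X][X]) :=
  {f | ∀ j, f j ∈ Polynomials k (g j) N}

/-- The family `F_N` of `r`-tuples of curves. -/
def Tuples {k : Type} [Field k] {r : ℕ} (g : Fin r → ℕ) (m : k[X]) (f₁ : Fin r → k[X][X]) (N : ℕ) :
    Set (Fin r → k[X][X]) :=
  {f | ∀ j, f j ∈ Family (g j) m (f₁ j) N}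

/-- Multiplication by two is bijective on `J(E)`, `J` the Jacobian of `y ^ 2 = F(x)`, and every class of
2-power order in `H ^ 1 (E, J)` which is zero over the completions of `E` at all maximal ideals of `R` is
zero. -/
def NoTwoPart (R : Type) {E : Type} [Field E] [CommRing R] [IsDedekindDomain R] [Algebra R E]
    [IsFractionRing R E] (F : E[X]) : Prop :=
  UniquelyTwoDivisible F ∧ ShaTwoTrivial F R

/-- `f` is irreducible modulo `P`. -/
def IrreducibleMod {k : Type} [Field k] (f : k[X][X]) (P : k[X]) : Prop :=
  Irreducible (f.map (Ideal.Quotient.mk (Ideal.span {P})))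

/-- `P` is unramified in the extension `R` of `k[t]`. -/
def Unramified {k : Type} [Field k] (R : Type) [CommRing R] [Algebra k[X] R] (P : k[X]) : Prop :=
  ∀ w : HeightOneSpectrum R, algebraMap k[X] R P ∈ w.asIdeal → algebraMap k[X] R P ∉ w.asIdeal ^ 2

/-- `L_0 ⊆ L_1 ⊆ L_2 ⊆ ...` is a tower of finite Galois extensions of `K` of 2-power degrees. -/
structure IsTower (K Ω : Type) [Field K] [Field Ω] [Algebra K Ω] (L : ℕ → IntermediateField K Ω) :
    Prop where
  tower : Monotone L
  finite : ∀ i, FiniteDimensional K (L i)
  galois : ∀ i, IsGalois K (L i)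
  degree : ∀ i, ∃ n : ℕ, Module.finrank K (L i) = 2 ^ n

/-- `Q` splits completely in the extension `R` of `k[t]`: it is unramified, and every element of `R` is
congruent to a polynomial modulo every prime over `Q`. -/
def SplitsCompletely {k : Type} [Field k] (R : Type) [CommRing R] [Algebra k[X] R] (Q : k[X]) :
    Prop :=
  Unramified R Q ∧ ∀ w : HeightOneSpectrum R, algebraMap k[X] R Q ∈ w.asIdeal →
    ∀ y : R, ∃ c : k[X], y - algebraMap k[X] R c ∈ w.asIdeal

/-- The (finite Galois) extension `M` of `K`, in which `R` is the integral closure of `k[t]`, belongs to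
the class `C(f, T)`: it has 2-power degree, all `Q ∈ T` split completely in it, and only such primes are
ramified in it modulo which `f` is irreducible. -/
structure InClass {k : Type} [Field k] (K : Type) [Field K] (T : Finset k[X]) (f : k[X][X])
    (M : Type) [Field M] [Algebra K M] (R : Type) [CommRing R] [Algebra k[X] R] : Prop where
  degree : ∃ n : ℕ, Module.finrank K M = 2 ^ n
  splits : ∀ Q ∈ T, SplitsCompletely R Q
  ramified : ∀ P : k[X], Irreducible P → Unramified R P ∨ IrreducibleMod f P

/-- There are divisors `D_1, ..., D_r` of the product of `T` such that for all the fields `M` which belong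
to all the classes `C(f_j, T)`, for all the fields `E` between `K = k(t)` and `M` and for all `j` the
quadratic twist by `D_j` of the Jacobian of `y ^ 2 = f_j(x)`, the Jacobian of
`y ^ 2 = D_j ^ (2 g_j + 1) f_j(x / D_j)`, has no 2-part over `E`. Here `R` is the integral closure of
`k[t]` in `M`, and `R'` that in `E`. -/
def HasGoodTwists {k : Type} [Field k] (K : Type) [Field K] [Algebra k[X] K] (T : Finset k[X])
    {r : ℕ} (f : Fin r → k[X][X]) : Prop :=
  ∃ D : Fin r → k[X], (∀ j, D j ∣ ∏ Q ∈ T, Q) ∧
  ∀ (M : Type) [Field M] [Algebra K M] [Algebra k[X] M] [IsScalarTower k[X] K M]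
    [FiniteDimensional K M] [IsGalois K M] (R : Type) [CommRing R] [IsDedekindDomain R]
    [Algebra R M] [IsFractionRing R M] [Algebra k[X] R] [IsScalarTower k[X] R M]
    [IsIntegralClosure R k[X] M], (∀ j, InClass K T (f j) M R) →
    ∀ (E : IntermediateField K M) (R' : Type) [CommRing R'] [IsDedekindDomain R'] [Algebra R' E]
      [IsFractionRing R' E] [Algebra k[X] R'] [IsScalarTower k[X] R' E]
      [IsIntegralClosure R' k[X] E] (j : Fin r),
      NoTwoPart R' (((f j).scaleRoots (D j)).map (algebraMap k[X] E))

/-- Exceptional sets of tuples. -/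
theorem tuples_bad {r : ℕ} {α : Type} (F : Fin r → Set α) (hF : ∀ j, (F j).Finite)
    (G : Fin r → α → Prop) (c : Fin r → ℝ)
    (h : ∀ j, ({f ∈ F j | ¬ G j f}.ncard : ℝ) ≤ c j * ((F j).ncard : ℝ)) :
    ({f : Fin r → α | (∀ j, f j ∈ F j) ∧ ¬ ∀ j, G j (f j)}.ncard : ℝ) ≤
      (∑ j, c j) * ({f : Fin r → α | ∀ j, f j ∈ F j}.ncard : ℝ) := by
  obtain ⟨U, hU⟩ : ∃ U : Fin r → Fin r → Set α, U = fun i => Function.update F i {x ∈ F i | ¬ G i x} :=
    ⟨_, rfl⟩
  have hUi : ∀ i, U i i = {x ∈ F i | ¬ G i x} := fun i => by rw [hU]; exact Function.update_self _ _ _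
  have hUj : ∀ i j, j ≠ i → U i j = F j := fun i j hj => by
    rw [hU]; exact Function.update_of_ne hj _ _
  have hUf : ∀ i j, (U i j).Finite := by
    intro i j
    by_cases hj : j = i
    · subst hj
      rw [hUi]
      exact (hF j).subset fun f hf => hf.1
    · rw [hUj i j hj]
      exact hF j
  obtain ⟨V, hV⟩ : ∃ V : Fin r → Set (Fin r → α), V = fun i => {f | ∀ j, f j ∈ U i j} := ⟨_, rfl⟩
  have hVc : ∀ i, (V i).Finite ∧ (V i).ncard = ∏ j, (U i j).ncard := fun i => by
    rw [hV]
    exact Pool.Agent.H859.AL.ncard_tuples (U i) (hUf i)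
  have hsub : {f : Fin r → α | (∀ j, f j ∈ F j) ∧ ¬ ∀ j, G j (f j)} ⊆ ⋃ i ∈ (Finset.univ : Finset (Fin r)), V i := by
    rintro f ⟨hf, hG⟩
    push Not at hG
    obtain ⟨i, hi⟩ := hG
    rw [Set.mem_iUnion₂]
    refine ⟨i, Finset.mem_univ _, ?_⟩
    rw [hV]
    intro j
    by_cases hj : j = i
    · subst hj
      rw [hUi]
      exact ⟨hf j, hi⟩
    · rw [hUj i j hj]
      exact hf j
  have hfinU : (⋃ i ∈ (Finset.univ : Finset (Fin r)), V i).Finite :=
    Set.Finite.biUnion (Finset.finite_toSet _) fun i _ => (hVc i).1
  have h1 := Set.ncard_le_ncard hsub hfinU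
  have h2 : (⋃ i ∈ (Finset.univ : Finset (Fin r)), V i).ncard ≤ ∑ i, (V i).ncard :=
    Finset.set_ncard_biUnion_le Finset.univ V
  have hT := (Pool.Agent.H859.AL.ncard_tuples F hF).2
  have h3 : ∀ i, ((V i).ncard : ℝ) ≤ c i * ({f : Fin r → α | ∀ j, f j ∈ F j}.ncard : ℝ) := by
    intro i
    rw [(hVc i).2, hT, Nat.cast_prod, Nat.cast_prod,
      ← Finset.mul_prod_erase Finset.univ (fun j => ((U i j).ncard : ℝ)) (Finset.mem_univ i),
      ← Finset.mul_prod_erase Finset.univ (fun j => ((F j).ncard : ℝ)) (Finset.mem_univ i), hUi i]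
    have e : ∏ j ∈ Finset.univ.erase i, ((U i j).ncard : ℝ) =
        ∏ j ∈ Finset.univ.erase i, ((F j).ncard : ℝ) :=
      Finset.prod_congr rfl fun j hj => by rw [hUj i j (Finset.ne_of_mem_erase hj)]
    rw [e, ← mul_assoc]
    exact mul_le_mul_of_nonneg_right (h i) (Finset.prod_nonneg fun j _ => Nat.cast_nonneg _)
  calc ({f : Fin r → α | (∀ j, f j ∈ F j) ∧ ¬ ∀ j, G j (f j)}.ncard : ℝ)
      ≤ ∑ i, ((V i).ncard : ℝ) := by exact_mod_cast h1.trans h2
    _ ≤ ∑ i, c i * ({f : Fin r → α | ∀ j, f j ∈ F j}.ncard : ℝ) := Finset.sum_le_sum fun i _ => h3 i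
    _ = _ := by rw [Finset.sum_mul]

/-- Let `k` be a finite field of odd characteristic, `K = k(t)`, `L_0 ⊆ L_1 ⊆ ...` a tower of finite Galois
extensions of `K` of 2-power degrees, `m ≠ 0`, and for `j < r` let `1 ≤ g_j ≤ G` and `f₁_j` be monic of degree
`2 g_j + 1` over `k[t]` such that the discriminant of `f₁_j` is not divisible by the square of a prime
divisor of `m`, the primes which are ramified in the tower divide `m`, and `f₁_j` is irreducible modulo
these. The family `F_N` has positive density in the set of all tuples of the same height. In each layer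
infinitely many primes of `k[t]` split completely. There is ONE constant `C` such that for ALL the layers
`L_i` and every finite set `T` of primes which split completely in `L_i`, with residue fields of at least
`4 G + 3` elements: `L_i` belongs to the classes `C(f_j, T)` for all the tuples in `F_N`; and for all large
`N` all but at most `C (1 - 1 / (32 G)) ^ |T| |F_N|` members of `F_N` have divisors `D_j` of the product of the
primes in `T` such that for ALL the fields `M` which belong to the classes `C(f_j, T)` for all `j` and ALL the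
fields `E` between `K` and `M` multiplication by two is bijective on all `J_j(E)` and the 2-primary parts of
the Tate-Shafarevich groups of all `J_j` over `E` are zero, where `J_j` is the quadratic twist by `D_j` of
the Jacobian of `y ^ 2 = f_j(x)`. -/
theorem result (G r : ℕ) (g : Fin r → ℕ) (hg : ∀ j, 1 ≤ g j) (hG : ∀ j, g j ≤ G)
    (k : Type) [Field k] [Finite k] (hp : (2 : k) ≠ 0)
    (K : Type) [Field K] [Algebra k[X] K] [IsFractionRing k[X] K]
    (Ω : Type) [Field Ω] [Algebra K Ω] [Algebra k[X] Ω] [IsScalarTower k[X] K Ω]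
    (L : ℕ → IntermediateField K Ω) (hL : IsTower K Ω L) (m : k[X]) (hm : m ≠ 0)
    (f₁ : Fin r → k[X][X]) (hf₁ : ∀ j, (f₁ j).Monic) (hd₁ : ∀ j, (f₁ j).natDegree = 2 * g j + 1)
    (hdisc : ∀ (j : Fin r) (P : k[X]), Irreducible P → P ∣ m → ¬ P ^ 2 ∣ (f₁ j).discr)
    (hram : ∀ (i : ℕ) (P : k[X]), Irreducible P →
      Unramified (integralClosure k[X] (L i)) P ∨ (P ∣ m ∧ ∀ j, IrreducibleMod (f₁ j) P)) :
    (∀ N : ℕ, (AllTuples k g N).Finite) ∧
    (∃ c : ℝ, 0 < c ∧ ∀ᶠ N : ℕ in atTop, 0 < (Tuples g m f₁ N).ncard ∧
      c * ((AllTuples k g N).ncard : ℝ) ≤ ((Tuples g m f₁ N).ncard : ℝ)) ∧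
    (∀ i : ℕ, {Q : k[X] | Q.Monic ∧ Irreducible Q ∧
      SplitsCompletely (integralClosure k[X] (L i)) Q}.Infinite) ∧
    ∃ C : ℝ, ∀ (i : ℕ) (T : Finset k[X]),
      (∀ Q ∈ T, Q.Monic ∧ Irreducible Q ∧ SplitsCompletely (integralClosure k[X] (L i)) Q ∧
        4 * G + 3 ≤ Nat.card k ^ Q.natDegree) →
      (∀ N : ℕ, ∀ f ∈ Tuples g m f₁ N, ∀ j,
        InClass K T (f j) (L i) (integralClosure k[X] (L i))) ∧
      ∀ᶠ N : ℕ in atTop, ({f ∈ Tuples g m f₁ N | ¬ HasGoodTwists K T f}.ncard : ℝ) ≤
        C * (1 - 1 / (32 * G)) ^ T.card * ((Tuples g m f₁ N).ncard : ℝ) := by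
  have hall : ∀ g' N, Polynomials k g' N =
      {f : k[X][X] | Pool.Agent.H859.PJ.HtA g' (2 * N) f} := by
    intro g' N
    ext f
    exact ⟨fun h => ⟨h.1, h.2.1, h.2.2⟩, fun h => ⟨h.mon, h.deg, h.ht⟩⟩
  have hfam : ∀ j N, Family (g j) m (f₁ j) N =
      Pool.Agent.H859.AL.Fam (g j) N (m ^ 2) (f₁ j) := by
    intro j N
    ext f
    constructor
    · rintro ⟨h1, h2, h3, h4⟩
      exact ⟨⟨h1.1, h1.2.1, h1.2.2⟩, (Pool.Agent.H859.AL.irrInf_iff N f).2 h2,
        (Pool.Agent.H859.AL.sq_discr h1.1 h1.2.1).2 h3, h4⟩
    · rintro ⟨h1, h2, h3, h4⟩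
      exact ⟨⟨h1.mon, h1.deg, h1.ht⟩, (Pool.Agent.H859.AL.irrInf_iff N f).1 h2,
        (Pool.Agent.H859.AL.sq_discr h1.mon h1.deg).1 h3, h4⟩
  have hGM := fun j => Pool.Agent.H859.TWC.goodM_sq hm (hf₁ j) (hd₁ j) (hdisc j)
  have hfin : ∀ g' N, (Polynomials k g' N).Finite := fun g' N => by
    rw [hall]
    exact (Pool.Agent.H859.N415.PJMAIN.ht_card (k := k) g' (2 * N)).1
  have hfinF : ∀ j N, (Family (g j) m (f₁ j) N).Finite := fun j N =>
    (hfin (g j) N).subset fun f hf => hf.1
  have hq : (0 : ℝ) < Nat.card k := by exact_mod_cast Nat.card_pos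
  -- the density for each `j`
  have hpos : ∀ j, ∃ c : ℝ, 0 < c ∧ ∀ᶠ N : ℕ in atTop, 0 < (Family (g j) m (f₁ j) N).ncard ∧
      c * ((Polynomials k (g j) N).ncard : ℝ) ≤ ((Family (g j) m (f₁ j) N).ncard : ℝ) := by
    intro j
    obtain ⟨c, hc, N₀, hN₀⟩ := Pool.Agent.H859.AL.fam_pos (hg j) hp (hGM j)
    refine ⟨c / (Nat.card k : ℝ) ^ (2 * g j + 1), by positivity, ?_⟩
    filter_upwards [eventually_ge_atTop N₀] with N hN
    obtain ⟨hF, hle⟩ := hN₀ N hN
    rw [hfam]
    have h1 : (0 : ℝ) < ((Pool.Agent.H859.AL.Fam (g j) N (m ^ 2) (f₁ j)).ncard : ℝ) :=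
      lt_of_lt_of_le (by positivity) hle
    refine ⟨by exact_mod_cast h1, ?_⟩
    have h2 : ((Polynomials k (g j) N).ncard : ℝ) ≤
        (Nat.card k : ℝ) ^ (2 * N * Pool.Agent.H859.PJ.ddA (g j)) *
          (Nat.card k : ℝ) ^ (2 * g j + 1) := by
      rw [hall, ← pow_add]
      exact_mod_cast (Pool.Agent.H859.N415.PJMAIN.ht_card (k := k) (g j) (2 * N)).2
    calc c / (Nat.card k : ℝ) ^ (2 * g j + 1) * ((Polynomials k (g j) N).ncard : ℝ)
        ≤ c / (Nat.card k : ℝ) ^ (2 * g j + 1) *
          ((Nat.card k : ℝ) ^ (2 * N * Pool.Agent.H859.PJ.ddA (g j)) *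
            (Nat.card k : ℝ) ^ (2 * g j + 1)) := by gcongr
      _ = c * (Nat.card k : ℝ) ^ (2 * N * Pool.Agent.H859.PJ.ddA (g j)) := by field_simp
      _ ≤ _ := hle
  have hAll := fun N => Pool.Agent.H859.AL.ncard_tuples (fun j : Fin r => Polynomials k (g j) N)
    fun j => hfin (g j) N
  have hTup := fun N => Pool.Agent.H859.AL.ncard_tuples
    (fun j : Fin r => Family (g j) m (f₁ j) N) fun j => hfinF j N
  refine ⟨fun N => (hAll N).1, ?_, ?_, ?_⟩
  · choose c hc hcN using hpos
    refine ⟨∏ j, c j, Finset.prod_pos fun j _ => hc j, ?_⟩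
    filter_upwards [eventually_all.2 hcN] with N hN
    have e1 : (Tuples g m f₁ N).ncard = ∏ j, (Family (g j) m (f₁ j) N).ncard := (hTup N).2
    have e2 : (AllTuples k g N).ncard = ∏ j, (Polynomials k (g j) N).ncard := (hAll N).2
    rw [e1, e2]
    refine ⟨Finset.prod_pos fun j _ => (hN j).1, ?_⟩
    rw [Nat.cast_prod, Nat.cast_prod, ← Finset.prod_mul_distrib]
    exact Finset.prod_le_prod (fun j _ => mul_nonneg (hc j).le (Nat.cast_nonneg _))
      fun j _ => (hN j).2
  · intro i hfin
    haveI := hL.finite i
    haveI := hL.galois i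
    haveI : IsScalarTower k[X] K (L i) := IntermediateField.isScalarTower _
    haveI : Algebra.IsSeparable K (L i) := IsGalois.to_isSeparable
    haveI : IsDedekindDomain (integralClosure k[X] (L i)) :=
      integralClosure.isDedekindDomain k[X] K (L i)
    haveI : IsFractionRing (integralClosure k[X] (L i)) (L i) :=
      integralClosure.isFractionRing_of_finite_extension K (L i)
    obtain ⟨S, hcard, hS⟩ := Pool.Agent.H859.AL.exists_T (k := k) (K := K) (L i)
      (integralClosure k[X] (L i)) 0 (hfin.toFinset.card + 1)
    have hsub : S ⊆ hfin.toFinset := by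
      intro Q hQ
      rw [Set.Finite.mem_toFinset]
      exact ⟨(hS Q hQ).1, (hS Q hQ).2.1, fun w hw => ((hS Q hQ).2.2.1 w hw).1,
        fun w hw => ((hS Q hQ).2.2.1 w hw).2⟩
    have := Finset.card_le_card hsub
    omega
  · have hfa := fun j => Pool.Agent.H859.AL.final_almost (hg j) hp K (hGM j)
    choose C hC0 hC using hfa
    refine ⟨∑ j, |C j|, fun i T hT => ⟨?_, ?_⟩⟩
    · intro N f hf j
      refine ⟨hL.degree i, fun Q hQ => (hT Q hQ).2.2.1, fun P hP => ?_⟩
      rcases hram i P hP with h | ⟨h, h'⟩
      · exact Or.inl h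
      · right
        have hc : Pool.Agent.N352.PJ.Cg P (f j) (f₁ j) := fun l =>
          (h.trans (dvd_pow_self m two_ne_zero)).trans ((hf j).2.2.2 l)
        show Irreducible ((f j).map (Ideal.Quotient.mk (Ideal.span {P})))
        rw [Pool.Agent.H859.TWC.cg_map hc]
        exact h' j
    · have hCj : ∀ j : Fin r, ∃ N₀ : ℕ, ∀ N ≥ N₀,
          ({f ∈ Pool.Agent.H859.AL.Fam (g j) N (m ^ 2) (f₁ j) |
            ¬ Pool.Agent.H859.AL.GoodTw K T f}.ncard : ℝ) ≤
            C j * (1 - 1 / (32 * (g j))) ^ T.card *
              ((Pool.Agent.H859.AL.Fam (g j) N (m ^ 2) (f₁ j)).ncard : ℝ) := fun j =>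
        hC j T fun Q hQ => ⟨(hT Q hQ).1, (hT Q hQ).2.1,
          (show 4 * g j + 3 ≤ Nat.card k ^ Q.natDegree from by
            have h1 := (hT Q hQ).2.2.2
            have h2 := hG j
            omega)⟩
      choose N₀ hN₀ using hCj
      filter_upwards [eventually_ge_atTop (Finset.univ.sup N₀)] with N hN
      have hb : ∀ j : Fin r, ({f ∈ Family (g j) m (f₁ j) N |
          ¬ Pool.Agent.H859.AL.GoodTw K T f}.ncard : ℝ) ≤
          |C j| * (1 - 1 / (32 * G)) ^ T.card * ((Family (g j) m (f₁ j) N).ncard : ℝ) := by
        intro j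
        have h1 := hN₀ j N ((Finset.le_sup (f := N₀) (Finset.mem_univ j)).trans hN)
        rw [hfam]
        refine h1.trans ?_
        have hg' : (1 : ℝ) ≤ g j := by exact_mod_cast hg j
        have hG' : (g j : ℝ) ≤ G := by exact_mod_cast hG j
        have hρ1 : (1 : ℝ) / (32 * g j) ≤ 1 / 32 := by
          apply one_div_le_one_div_of_le (by norm_num)
          linarith
        have hρ2 : (1 : ℝ) / (32 * G) ≤ 1 / (32 * g j) := by
          apply one_div_le_one_div_of_le (by linarith)
          linarith
        have hρ3 : (0 : ℝ) ≤ 1 - 1 / (32 * g j) := by linarith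
        have h2 : (1 - 1 / (32 * (g j : ℝ))) ^ T.card ≤ (1 - 1 / (32 * (G : ℝ))) ^ T.card :=
          pow_le_pow_left₀ hρ3 (by linarith) _
        exact mul_le_mul_of_nonneg_right (mul_le_mul (le_abs_self _) h2 (pow_nonneg hρ3 _)
          (abs_nonneg _)) (Nat.cast_nonneg _)
      have h3 := tuples_bad (fun j : Fin r => Family (g j) m (f₁ j) N) (fun j => hfinF j N)
        (fun _ f => Pool.Agent.H859.AL.GoodTw K T f)
        (fun j => |C j| * (1 - 1 / (32 * G)) ^ T.card) hb
      rw [Finset.sum_mul]
      refine le_trans ?_ h3
      have hfinT : {f : Fin r → k[X][X] | (∀ j, f j ∈ Family (g j) m (f₁ j) N) ∧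
          ¬ ∀ j, Pool.Agent.H859.AL.GoodTw K T (f j)}.Finite :=
        (hTup N).1.subset fun f hf => hf.1
      have hsub : {f ∈ Tuples g m f₁ N | ¬ HasGoodTwists K T f} ⊆
          {f : Fin r → k[X][X] | (∀ j, f j ∈ Family (g j) m (f₁ j) N) ∧
            ¬ ∀ j, Pool.Agent.H859.AL.GoodTw K T (f j)} := by
        rintro f ⟨hf, hno⟩
        refine ⟨hf, fun hgt => hno ?_⟩
        have huse := fun j : Fin r => Pool.Agent.H859.AL.good_use hp K
          (fun Q hQ => ⟨(hT Q hQ).1, (hT Q hQ).2.1⟩)
          (show Pool.Agent.H859.PJ.HtA (g j) (2 * N) (f j) from by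
            have := hf j
            rw [hfam] at this
            exact this.1)
          (show _ from by
            have := hf j
            rw [hfam] at this
            exact this.2.1)
          (show _ from by
            have := hf j
            rw [hfam] at this
            exact this.2.2.1) (hgt j)
        choose D hD h using huse
        refine ⟨D, hD, ?_⟩
        intro M _ _ _ _ _ _ R _ _ _ _ _ _ _ hM E R' _ _ _ _ _ _ _ j
        obtain ⟨n, hn⟩ := (hM j).degree
        exact h j M R n hn (fun Q hQ w hw => ⟨((hM j).splits Q hQ).1 w hw,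
          ((hM j).splits Q hQ).2 w hw⟩) (hM j).ramified E R'
      exact_mod_cast Set.ncard_le_ncard hsub hfinT

end Pool.Agent.Results.MP_bd895b_nt.CurvesInTowersOfCovers
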