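import Pool.Agent.H731.GS.Main

/-!
# Approximation of zero-cycles on 100% of the complete intersections in Grassmannians

Let `G = G(q+1, q+n+1)` be a Grassmannian over `ℚ` in its Plücker embedding, `n ≥ 3`, and let
`d_1, …, d_r ≥ 2` with `d_1 + ⋯ + d_r ≤ n` (`r ≥ 1`). We consider the systems `F = (F_1, …, F_r)` of forms of degrees
`d_1, …, d_r` in the Plücker coordinates with integral coefficients of absolute value at most `H`, and
the complete intersections `X_F = G ∩ {F_1 = … = F_r = 0}`. There is a function `m(H) → ∞` such that for 100% of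
the everywhere locally soluble `X_F` (as `H → ∞`) the following is true with `m = m(H)`: for every integer `d`, every
zero-cycle of degree `d` supported in `X_F(ℝ)` and all zero-cycles of degree `d` supported in the `X_F(ℚ_p)`, `p ≤ m`,
there is one zero-cycle of degree `d` supported in `X_F(ℚ)` which is close to all of them (to precision `1 / m`).
In particular (`d = 1`) these `X_F` have zero-cycles of degree one.

The same is proved for all varieties `V` swept out by linear spaces `ℙⁿ` (`Pool.Agent.H731.GS.SweptC`).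
-/

set_option autoImplicit false

namespace Pool.Agent.Results.MP_bd895b_nt.CyclesInGrassmannians100

open Filter Topology
open Pool.Agent.T2H39.CV (Cone IsCone)

/-- The systems of `r` integral forms of degrees `d j` in the coordinates indexed by `ι`, with
coefficients of absolute value at most `H`. -/
def Systems (ι : Type) {r : ℕ} (d : Fin r → ℕ) (H : ℕ) : Set (Fin r → MvPolynomial ι ℤ) :=
  {F | ∀ j, (F j).IsHomogeneous (d j) ∧ ∀ a, |(F j).coeff a| ≤ (H : ℤ)}

/-- The points over `K` of the complete intersection `X_F = V ∩ {F_1 = … = F_r = 0}`, where `X` is the set of the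
homogeneous coordinate vectors of the points of `V` over `K`. -/
def Points {ι : Type} {r : ℕ} (F : Fin r → MvPolynomial ι ℤ) {K : Type} [Field K]
    (X : Set (ι → K)) : Type :=
  {P : Projectivization K (ι → K) // P.rep ∈ X ∧ ∀ j, MvPolynomial.aeval P.rep (F j) = 0}

/-- `X_F` has points over the real numbers and over all the `p`-adic fields. -/
def LocallySoluble {ι : Type} {r : ℕ} (V : Cone ι) (F : Fin r → MvPolynomial ι ℤ) : Prop :=
  Nonempty (Points F V.R) ∧ ∀ (p : ℕ) [Fact p.Prime], Nonempty (Points F (V.P p))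

/-- The zero-cycles of degree `d` which are supported in the points over `K`. -/
def Cycles {ι : Type} {r : ℕ} (F : Fin r → MvPolynomial ι ℤ) {K : Type} [Field K]
    (X : Set (ι → K)) (d : ℤ) : Set (Points F X →₀ ℤ) := {z | z.sum (fun _ c => c) = d}

/-- The rational point `R` is close to the point `P` over `K` to precision `δ`: for suitable homogeneous
coordinates `x` of `R` and `y` of `P` all coordinates of `y - x` are at most `δ ‖y‖`, where `‖y‖` is the largest
absolute value of a coordinate of `y`. -/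
def Close (δ : ℝ) {ι : Type} [Fintype ι] {r : ℕ} {F : Fin r → MvPolynomial ι ℤ} {K : Type}
    [NormedField K] {X : Set (ι → K)} {Y : Set (ι → ℚ)} (P : Points F X) (R : Points F Y) : Prop :=
  ∃ c : K, c ≠ 0 ∧ ∀ i, ‖P.1.rep i - c * (R.1.rep i : K)‖ ≤ δ * ‖P.1.rep‖

/-- The zero-cycle `z` over `ℚ` is close to the zero-cycle `w` over `K` to precision `δ`: one can write
`w = ∑ c j P j` and `z = ∑ c j R j` with the same integers `c j` and with `R j` close to `P j`. -/
def CloseCycles (δ : ℝ) {ι : Type} [Fintype ι] {r : ℕ} {F : Fin r → MvPolynomial ι ℤ} {K : Type}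
    [NormedField K] {X : Set (ι → K)} {Y : Set (ι → ℚ)} (w : Points F X →₀ ℤ)
    (z : Points F Y →₀ ℤ) : Prop :=
  ∃ (N : ℕ) (c : Fin N → ℤ) (P : Fin N → Points F X) (R : Fin N → Points F Y),
    w = ∑ j, Finsupp.single (P j) (c j) ∧ z = ∑ j, Finsupp.single (R j) (c j) ∧
    ∀ j, Close δ (P j) (R j)

/-- Approximation of zero-cycles to precision `1 / m`: for every integer `d`, every zero-cycle `y` of degree
`d` supported in `X_F(ℝ)` and all zero-cycles `w p` of degree `d` supported in `X_F(ℚ_p)`, `p ≤ m`, there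
is one zero-cycle of degree `d` supported in `X_F(ℚ)` which is `1 / m`-close to `y` and to `w p` for all primes
`p ≤ m`. -/
def CycleApproximation {ι : Type} [Fintype ι] {r : ℕ} (V : Cone ι) (m : ℕ)
    (F : Fin r → MvPolynomial ι ℤ) : Prop :=
  ∀ (d : ℤ) (y : Points F V.R →₀ ℤ) (w : ∀ (p : ℕ) [Fact p.Prime], Points F (V.P p) →₀ ℤ),
    y ∈ Cycles F V.R d → (∀ (p : ℕ) [Fact p.Prime], p ≤ m → w p ∈ Cycles F (V.P p) d) →
    ∃ z ∈ Cycles F V.Q d, CloseCycles (1 / m) y z ∧
      ∀ (p : ℕ) [Fact p.Prime], p ≤ m → CloseCycles (1 / m) (w p) z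

/-- The conclusion for a variety `V` and degrees `d j`: 100% of the everywhere locally soluble `X_F` have the
approximation property for zero-cycles with precision `1 / m(H)`, `m(H) → ∞`. -/
def Holds {ι : Type} [Fintype ι] (V : Cone ι) {r : ℕ} (d : Fin r → ℕ) : Prop :=
  ∃ m : ℕ → ℕ, Tendsto m atTop atTop ∧ Tendsto (fun H : ℕ =>
    (({F | F ∈ Systems ι d H ∧ LocallySoluble V F ∧ CycleApproximation V (m H) F} : Set _).ncard : ℝ) /
    (({F | F ∈ Systems ι d H ∧ LocallySoluble V F} : Set _).ncard : ℝ)) atTop (𝓝 1)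

/-- the indices of the Plücker coordinates of `G(k, N)`: the sets of `k` columns -/
abbrev Plucker (k N : ℕ) : Type := {I : Finset (Fin N) // I.card = k}

/-- the points of the Grassmannian `G(k, N)` over `K` in the Plücker embedding: the nonzero vectors of the
maximal minors of the matrices with `k` rows and `N` columns -/
def grPoints (k N : ℕ) (K : Type) [Field K] : Set (Plucker k N → K) :=
  {z | z ≠ 0 ∧ ∃ M : Fin k → Fin N → K,
    z = fun I => Matrix.det (Matrix.of fun i j => M i (I.1.orderEmbOfFin I.2 j))}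

/-- the Grassmannian `G(k, N)` (coordinate vectors of its points over `ℚ`, `ℝ` and all `ℚ_[p]`) -/
def Grassmannian (k N : ℕ) : Cone (Plucker k N) where
  Q := grPoints k N ℚ
  R := grPoints k N ℝ
  P := fun p _ => grPoints k N ℚ_[p]

section Proof

variable {ι : Type} {r : ℕ} {F : Fin r → MvPolynomial ι ℤ}

theorem sum_single_append {X : Type*} {N N' : ℕ} (A : Fin N → X) (B : Fin N' → X) :
    ∑ i, Finsupp.single (Fin.append A B i) (1 : ℤ) =
      (∑ i, Finsupp.single (A i) (1 : ℤ)) + ∑ i, Finsupp.single (B i) (1 : ℤ) := by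
  rw [Fin.sum_univ_add]
  simp only [Fin.append_left, Fin.append_right]

theorem sum_single_const {X : Type*} (N : ℕ) (x : X) :
    ∑ _i : Fin N, Finsupp.single x (1 : ℤ) = Finsupp.single x (N : ℤ) := by
  rw [Finset.sum_const, Finset.card_univ, Fintype.card_fin, Finsupp.smul_single, nsmul_eq_mul,
    mul_one]

theorem exists_diff {X : Type*} (b : X) (w : X →₀ ℤ) :
    ∃ N₀ : ℕ, ∀ N, N₀ ≤ N → ∃ A B : Fin N → X,
      w = (∑ i, Finsupp.single (A i) (1 : ℤ)) - (∑ i, Finsupp.single (B i) (1 : ℤ)) +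
        Finsupp.single b (w.sum (fun _ c => c)) := by
  classical
  induction w using Finsupp.induction_linear with
  | zero =>
    refine ⟨0, fun N _ => ⟨fun _ => b, fun _ => b, ?_⟩⟩
    simp
  | add w₁ w₂ h₁ h₂ =>
    obtain ⟨N₁, h₁⟩ := h₁
    obtain ⟨N₂, h₂⟩ := h₂
    refine ⟨N₁ + N₂, fun N hN => ?_⟩
    obtain ⟨M, rfl⟩ : ∃ M, N = N₁ + M := ⟨N - N₁, by omega⟩
    obtain ⟨A₁, B₁, e₁⟩ := h₁ N₁ le_rfl
    obtain ⟨A₂, B₂, e₂⟩ := h₂ M (by omega)
    refine ⟨Fin.append A₁ A₂, Fin.append B₁ B₂, ?_⟩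
    rw [sum_single_append, sum_single_append,
      Finsupp.sum_add_index' (fun _ => rfl) (fun _ _ _ => rfl), Finsupp.single_add]
    nth_rewrite 1 [e₁]
    nth_rewrite 1 [e₂]
    abel
  | single x c =>
    have hs : (Finsupp.single x c).sum (fun _ c => c) = c := Finsupp.sum_single_index rfl
    rw [hs]
    refine ⟨c.natAbs, fun N hN => ?_⟩
    obtain ⟨M, rfl⟩ : ∃ M, N = c.natAbs + M := ⟨N - c.natAbs, by omega⟩
    rcases le_total 0 c with hc | hc
    · refine ⟨Fin.append (fun _ : Fin c.natAbs => x) (fun _ : Fin M => b),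
        Fin.append (fun _ : Fin c.natAbs => b) (fun _ : Fin M => b), ?_⟩
      rw [sum_single_append, sum_single_append]
      simp only [sum_single_const]
      have h1 : ((c.natAbs : ℕ) : ℤ) = c := Int.natAbs_of_nonneg hc
      rw [h1]
      abel
    · refine ⟨Fin.append (fun _ : Fin c.natAbs => b) (fun _ : Fin M => b),
        Fin.append (fun _ : Fin c.natAbs => x) (fun _ : Fin M => b), ?_⟩
      rw [sum_single_append, sum_single_append]
      simp only [sum_single_const]
      have h1 : ((c.natAbs : ℕ) : ℤ) = -c := by omega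
      rw [h1, Finsupp.single_neg, Finsupp.single_neg]
      abel

theorem sum_split {X : Type*} {N : ℕ} (U V : Fin N → X) (b : X) (d : ℤ) :
    (∑ i, Finsupp.single (U i) (1 : ℤ)) - (∑ i, Finsupp.single (V i) (1 : ℤ)) +
        Finsupp.single b d =
      ∑ i : Fin (N + N + 1), Finsupp.single (Fin.append (Fin.append U V) (fun _ : Fin 1 => b) i)
        (Fin.append (Fin.append (fun _ : Fin N => (1 : ℤ)) (fun _ : Fin N => (-1 : ℤ)))
          (fun _ : Fin 1 => d) i) := by
  rw [Fin.sum_univ_add, Fin.sum_univ_add]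
  simp only [Fin.append_left, Fin.append_right, Finsupp.single_neg, Finset.sum_neg_distrib]
  rw [sub_eq_add_neg]
  simp

theorem deg_split {X : Type*} {N : ℕ} (U V : Fin N → X) (b : X) (d : ℤ) :
    ((∑ i, Finsupp.single (U i) (1 : ℤ)) - (∑ i, Finsupp.single (V i) (1 : ℤ)) +
      Finsupp.single b d).sum (fun _ c => c) = d := by
  classical
  have hdeg : ∀ (U : Fin N → X),
      (∑ i, Finsupp.single (U i) (1 : ℤ)).sum (fun _ c => c) = (N : ℤ) := by
    intro U
    rw [← Finsupp.sum_finsetSum_index (fun _ => rfl) (fun _ _ _ => rfl)]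
    simp
  rw [Finsupp.sum_add_index' (fun _ => rfl) (fun _ _ _ => rfl),
    Finsupp.sum_sub_index (fun _ _ _ => rfl), hdeg, hdeg, sub_self, zero_add,
    Finsupp.sum_single_index rfl]

theorem closeCycles_split [Fintype ι] {δ : ℝ} {K : Type} [NormedField K] {X : Set (ι → K)}
    {Y : Set (ι → ℚ)} {N : ℕ}
    (U V : Fin N → Points F X) (b : Points F X) (R T : Fin N → Points F Y) (b' : Points F Y)
    (d : ℤ) (hU : ∀ i, Close δ (U i) (R i)) (hV : ∀ i, Close δ (V i) (T i)) (hb : Close δ b b') :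
    CloseCycles δ
      ((∑ i, Finsupp.single (U i) (1 : ℤ)) - (∑ i, Finsupp.single (V i) (1 : ℤ)) +
        Finsupp.single b d)
      ((∑ i, Finsupp.single (R i) (1 : ℤ)) - (∑ i, Finsupp.single (T i) (1 : ℤ)) +
        Finsupp.single b' d) := by
  refine ⟨N + N + 1, _, _, _, sum_split U V b d, sum_split R T b' d, fun i => ?_⟩
  refine Fin.addCases (fun i => ?_) (fun i => ?_) i
  · rw [Fin.append_left, Fin.append_left]
    refine Fin.addCases (fun i => ?_) (fun i => ?_) i
    · rw [Fin.append_left, Fin.append_left]; exact hU i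
    · rw [Fin.append_right, Fin.append_right]; exact hV i
  · rw [Fin.append_right, Fin.append_right]; exact hb

theorem aeval_scale {K : Type} [Field K] {d : ℕ} {f : MvPolynomial ι ℤ} (hf : f.IsHomogeneous d)
    (c : K) (x : ι → K) :
    MvPolynomial.aeval (c • x) f = c ^ d * MvPolynomial.aeval x f := by
  rw [MvPolynomial.aeval_def, MvPolynomial.aeval_def, MvPolynomial.eval₂_eq,
    MvPolynomial.eval₂_eq, Finset.mul_sum]
  refine Finset.sum_congr rfl fun m hm => ?_
  have hm' := hf (MvPolynomial.mem_support_iff.1 hm)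
  rw [Finsupp.weight_apply] at hm'
  simp only [Pi.one_apply, smul_eq_mul, mul_one] at hm'
  simp only [Pi.smul_apply, smul_eq_mul, mul_pow]
  rw [Finset.prod_mul_distrib, Finset.prod_pow_eq_pow_sum]
  have h2 : ∑ i ∈ m.support, m i = d := hm'
  rw [h2]
  ring

theorem exists_point {d : Fin r → ℕ} (hF : ∀ j, (F j).IsHomogeneous (d j)) {K : Type} [Field K]
    {X : Set (ι → K)} (hX : IsCone X) (x : ι → K) (hx : x ∈ X)
    (hx0 : ∀ j, MvPolynomial.aeval x (F j) = 0) :
    ∃ (P : Points F X) (c : Kˣ), P.1.rep = c • x := by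
  obtain ⟨c, hc⟩ := Projectivization.exists_smul_eq_mk_rep K x (hX.ne x hx)
  refine ⟨⟨Projectivization.mk K x (hX.ne x hx), ?_, fun j => ?_⟩, c, hc.symm⟩
  · rw [← hc]
    exact hX.smul x hx (c : K) c.ne_zero
  · rw [← hc]
    have h := aeval_scale (hF j) (c : K) x
    rw [hx0 j, mul_zero] at h
    exact h

theorem nonempty_iff {d : Fin r → ℕ} (hF : ∀ j, (F j).IsHomogeneous (d j)) {K : Type} [Field K]
    {X : Set (ι → K)} (hX : IsCone X) :
    Nonempty (Points F X) ↔ ∃ z ∈ X, ∀ j, MvPolynomial.aeval z (F j) = 0 := by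
  constructor
  · rintro ⟨P⟩
    exact ⟨_, P.2.1, P.2.2⟩
  · rintro ⟨z, hz, hz0⟩
    obtain ⟨P, -⟩ := exists_point hF hX z hz hz0
    exact ⟨P⟩

theorem approx_of_wa [Fintype ι] {V : Cone ι} (hQ : IsCone V.Q) {d : Fin r → ℕ}
    (hF : ∀ j, (F j).IsHomogeneous (d j)) (hs : LocallySoluble V F) {m : ℕ}
    (h : Pool.Agent.H731.GS.WAV V m F) : CycleApproximation V m F := by
  classical
  intro d' y w hy hw
  obtain ⟨b⟩ := hs.1
  have hbp : ∀ (p : ℕ) [Fact p.Prime], ∃ _ : Points F (V.P p), True := fun p _ =>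
    ⟨(hs.2 p).some, trivial⟩
  choose bp _ using hbp
  obtain ⟨N₁, hN₁⟩ := exists_diff b y
  have hNp : ∀ (p : ℕ) [Fact p.Prime], ∃ N₀ : ℕ, ∀ N, N₀ ≤ N → ∃ A B : Fin N → Points F (V.P p),
      w p = (∑ i, Finsupp.single (A i) (1 : ℤ)) - (∑ i, Finsupp.single (B i) (1 : ℤ)) +
        Finsupp.single (bp p) ((w p).sum (fun _ c => c)) :=
    fun p _ => exists_diff (bp p) (w p)
  choose Np hNp using hNp
  obtain ⟨N, hN1, hN2⟩ : ∃ N : ℕ, N₁ ≤ N ∧ ∀ (p : ℕ) [Fact p.Prime], p ≤ m → Np p ≤ N := by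
    refine ⟨N₁ + ∑ p ∈ Finset.range (m + 1), (if hp : p.Prime then @Np p ⟨hp⟩ else 0),
      Nat.le_add_right _ _, ?_⟩
    intro p hpf hp
    have h1 := Finset.single_le_sum
      (f := fun p : ℕ => (if hp : p.Prime then @Np p ⟨hp⟩ else 0)) (fun _ _ => Nat.zero_le _)
      (Finset.mem_range.mpr (by omega : p < m + 1))
    simp only [dif_pos hpf.out] at h1
    omega
  obtain ⟨A, B, hAB⟩ := hN₁ N hN1
  have hAp : ∀ (p : ℕ) [Fact p.Prime], ∃ A B : Fin N → Points F (V.P p), p ≤ m →
      w p = (∑ i, Finsupp.single (A i) (1 : ℤ)) - (∑ i, Finsupp.single (B i) (1 : ℤ)) +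
        Finsupp.single (bp p) d' := by
    intro p _
    by_cases hp : p ≤ m
    · obtain ⟨A, B, h⟩ := hNp p N (hN2 p hp)
      refine ⟨A, B, fun _ => ?_⟩
      have h2 : (w p).sum (fun _ c => c) = d' := hw p hp
      rw [h2] at h
      exact h
    · exact ⟨fun _ => bp p, fun _ => bp p, fun h => absurd h hp⟩
  choose Ap Bp hABp using hAp
  -- approximation of single points
  have key : ∀ (P : Points F V.R) (Pp : ∀ (p : ℕ) [Fact p.Prime], Points F (V.P p)),
      ∃ R : Points F V.Q, Close (1 / m) P R ∧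
        ∀ (p : ℕ) [Fact p.Prime], p ≤ m → Close (1 / m) (Pp p) R := by
    intro P Pp
    obtain ⟨x, hxV, hx, h1, c₁, hc₁, h2⟩ := h (fun p _ => (Pp p).1.rep) P.1.rep
      (fun p _ => ⟨(Pp p).2.1, (Pp p).2.2⟩) P.2.1 P.2.2
    obtain ⟨R, c', hR'⟩ := exists_point hF hQ x hxV hx
    have hsc : ∀ (K : Type) [NormedField K] [CharZero K] (c : K) (i : ι),
        c / (((c' : ℚˣ) : ℚ) : K) * ((R.1.rep i : ℚ) : K) = c * ((x i : ℚ) : K) := by
      intro K _ _ c i
      have ha0 : (((c' : ℚˣ) : ℚ) : K) ≠ 0 := by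
        rw [Rat.cast_ne_zero]; exact c'.ne_zero
      rw [hR']
      have : (c' • x) i = ((c' : ℚˣ) : ℚ) * x i := rfl
      rw [this]
      push_cast
      field_simp
    refine ⟨R, ⟨c₁ / (((c' : ℚˣ) : ℚ) : ℝ), div_ne_zero hc₁ ?_, fun i => ?_⟩, fun p _ hp => ?_⟩
    · rw [Rat.cast_ne_zero]; exact c'.ne_zero
    · rw [hsc ℝ c₁ i, Real.norm_eq_abs, one_div, inv_mul_eq_div]
      exact h2 i
    · obtain ⟨c₂, hc₂, h3⟩ := h1 p hp
      refine ⟨c₂ / (((c' : ℚˣ) : ℚ) : ℚ_[p]), div_ne_zero hc₂ ?_, fun i => ?_⟩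
      · rw [Rat.cast_ne_zero]; exact c'.ne_zero
      · rw [hsc ℚ_[p] c₂ i, one_div, inv_mul_eq_div]
        exact h3 i
  have hRA : ∀ i : Fin N, ∃ R : Points F V.Q, Close (1 / m) (A i) R ∧
      ∀ (p : ℕ) [Fact p.Prime], p ≤ m → Close (1 / m) (Ap p i) R :=
    fun i => key (A i) (fun p _ => Ap p i)
  have hRB : ∀ i : Fin N, ∃ R : Points F V.Q, Close (1 / m) (B i) R ∧
      ∀ (p : ℕ) [Fact p.Prime], p ≤ m → Close (1 / m) (Bp p i) R :=
    fun i => key (B i) (fun p _ => Bp p i)
  obtain ⟨b', hb1, hb2⟩ := key b bp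
  choose R hR1 hR2 using hRA
  choose T hT1 hT2 using hRB
  refine ⟨(∑ i, Finsupp.single (R i) (1 : ℤ)) - (∑ i, Finsupp.single (T i) (1 : ℤ)) +
    Finsupp.single b' d', deg_split R T b' d', ?_, ?_⟩
  · have h2 : y.sum (fun _ c => c) = d' := hy
    rw [h2] at hAB
    rw [hAB]
    exact closeCycles_split A B b R T b' d' hR1 hT1 hb1
  · intro p hpf hp
    rw [hABp p hp]
    exact closeCycles_split (Ap p) (Bp p) (bp p) R T b' d' (fun i => hR2 i p hp)
      (fun i => hT2 i p hp) (hb2 p hp)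

theorem loc_iff {V : Cone ι} (hR : IsCone V.R) (hP : ∀ (p : ℕ) [Fact p.Prime], IsCone (V.P p))
    {d : Fin r → ℕ} (hF : ∀ j, (F j).IsHomogeneous (d j)) :
    LocallySoluble V F ↔ Pool.Agent.H731.GS.LocSolV V F := by
  unfold LocallySoluble Pool.Agent.H731.GS.LocSolV
  rw [nonempty_iff hF hR]
  exact Iff.and Iff.rfl (forall_congr' fun p => forall_congr' fun _ => nonempty_iff hF (hP p))

theorem systems_finite [Fintype ι] (d : Fin r → ℕ) (hd : ∀ j, 2 ≤ d j) (H : ℕ) :
    (Systems ι d H).Finite := by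
  obtain ⟨e, he⟩ : ∃ e : Fin r → ℕ, ∀ j, d j = e j + 2 :=
    ⟨fun j => d j - 2, fun j => by have := hd j; dsimp only; omega⟩
  obtain rfl : d = fun j => e j + 2 := funext he
  refine Set.Finite.subset (Pool.Agent.Y716.C.sysZ ι e (H : ℝ)).finite_toSet fun F hF => ?_
  exact Pool.Agent.H731.GS.px_fin_mem.2 hF

theorem holds_of_swept {n r : ℕ} (d : Fin r → ℕ) (hn : 3 ≤ n) (hr : 1 ≤ r) (hd : ∀ j, 2 ≤ d j)
    (hdn : ∑ j, d j ≤ n) (C ι Y : Type) [Fintype C] [Fintype ι] [Fintype Y] (V : Cone ι)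
    (A : Pool.Agent.H731.GS.Fra C ι Y n) (hC : Nonempty C) (hQ : IsCone V.Q)
    (hS : Pool.Agent.H731.GS.SweptC V A) : Holds V d := by
  obtain ⟨-, m, hm, h⟩ := Pool.Agent.H731.GS.fFIN C ι Y n r d hC hn hr hd hdn V A hS
  have hcp : ∀ (p : ℕ) [Fact p.Prime], IsCone (V.P p) := fun p _ => hS.coneP p
  have hloc : ∀ H : ℕ, {F | F ∈ Pool.Agent.H731.GS.Systems ι d H ∧
      Pool.Agent.H731.GS.LocSolV V F} = {F | F ∈ Systems ι d H ∧ LocallySoluble V F} := by
    intro H
    ext F
    exact and_congr_right fun hF => (loc_iff hS.coneR hcp fun j => (hF j).1).symm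
  have hwa : ∀ H : ℕ, {F | F ∈ Pool.Agent.H731.GS.Systems ι d H ∧
      Pool.Agent.H731.GS.LocSolV V F ∧ Pool.Agent.H731.GS.WAV V (m H) F} ⊆
      {F | F ∈ Systems ι d H ∧ LocallySoluble V F ∧ CycleApproximation V (m H) F} := by
    rintro H F ⟨hF, h1, h2⟩
    have h3 := (loc_iff hS.coneR hcp fun j => (hF j).1).mpr h1
    exact ⟨hF, h3, approx_of_wa hQ (fun j => (hF j).1) h3 h2⟩
  have hfin : ∀ (H : ℕ) (P : (Fin r → MvPolynomial ι ℤ) → Prop),
      ({F | F ∈ Systems ι d H ∧ P F} : Set _).Finite := fun H P =>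
    (systems_finite d hd H).subset fun F hF => hF.1
  refine ⟨m, hm, ?_⟩
  refine tendsto_of_tendsto_of_tendsto_of_le_of_le h tendsto_const_nhds (fun H => ?_) (fun H => ?_)
  · dsimp only
    rw [hloc H]
    exact div_le_div_of_nonneg_right
      (by exact_mod_cast Set.ncard_le_ncard (hwa H) (hfin H _)) (Nat.cast_nonneg _)
  · refine div_le_one_of_le₀ ?_ (Nat.cast_nonneg _)
    have hsub : {F | F ∈ Systems ι d H ∧ LocallySoluble V F ∧ CycleApproximation V (m H) F} ⊆
        {F | F ∈ Systems ι d H ∧ LocallySoluble V F} := fun F hF => ⟨hF.1, hF.2.1⟩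
    have h5 : ({F | F ∈ Systems ι d H ∧ LocallySoluble V F ∧
        CycleApproximation V (m H) F} : Set _).ncard ≤
        ({F | F ∈ Systems ι d H ∧ LocallySoluble V F} : Set _).ncard :=
      Set.ncard_le_ncard hsub (hfin H _)
    exact Nat.cast_le.mpr h5

end Proof

/-- 100% of the everywhere locally soluble complete intersections of multidegree `(d_1, …, d_r)` in the
Grassmannian `G(q + 1, q + n + 1)`, `d j ≥ 2`, `∑ d j ≤ n`, `n ≥ 3`, have the approximation property for zero-cycles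
of every degree to precision `1 / m(H)`, `m(H) → ∞`, and the same is true for all varieties which are swept out
by linear spaces `ℙⁿ`. -/
theorem result (n r : ℕ) (d : Fin r → ℕ) (hn : 3 ≤ n) (hr : 1 ≤ r) (hd : ∀ j, 2 ≤ d j)
    (hdn : ∑ j, d j ≤ n) :
    (∀ q : ℕ, Holds (Grassmannian (q + 1) (q + (n + 1))) d) ∧
    ∀ (C ι Y : Type) [Fintype C] [Fintype ι] [Fintype Y] (V : Cone ι)
      (A : Pool.Agent.H731.GS.Fra C ι Y n), Nonempty C → IsCone V.Q →
      Pool.Agent.H731.GS.SweptC V A → Holds V d := by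
  refine ⟨fun q => ?_, fun C ι Y _ _ _ V A hC hQ hS =>
    holds_of_swept d hn hr hd hdn C ι Y V A hC hQ hS⟩
  have h2 := Pool.Agent.H731.GS.fGRC q n
  have hG : ∀ (K : Type) [Field K], {z : Pool.Agent.T2H39.CV.Pl q (n + 1) → K | z ≠ 0 ∧
      ∃ A : Fin (q + 1) → Fin (q + (n + 1)) → K, z = Pool.Agent.T2H39.CV.pl A} =
      grPoints (q + 1) (q + (n + 1)) K := fun K _ => rfl
  have hV : Pool.Agent.T2H39.CV.Gr q (n + 1) = Grassmannian (q + 1) (q + (n + 1)) := by
    unfold Pool.Agent.T2H39.CV.Gr Grassmannian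
    simp only [hG]
  rw [hV] at h2
  refine holds_of_swept d hn hr hd hdn (Pool.Agent.T2H39.CV.Pl q (n + 1))
    (Plucker (q + 1) (q + (n + 1))) (Fin q × Fin n) _ (Pool.Agent.H731.GS.GrA q n) ?_ ?_ h2
  · obtain ⟨I, _, hI⟩ := Finset.exists_subset_card_eq
      (s := (Finset.univ : Finset (Fin (q + (n + 1))))) (n := q + 1)
      (by rw [Finset.card_univ, Fintype.card_fin]; omega)
    exact ⟨⟨I, hI⟩⟩
  · rw [← hV]
    exact Pool.Agent.T2H39.CV.Grs.isCone

end Pool.Agent.Results.MP_bd895b_nt.CyclesInGrassmannians100
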