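import Pool.Agent.H598.FI.Cyc2
import Pool.Agent.H598.FI.Signs

/-!
# Approximation of local zero-cycles on families of diagonal hypersurfaces over `F(t)`, all `F`

Let `F` be ANY finite field, `K = F(t)`, and let `a_1, ..., a_s` be polynomials in `m` variables `u`
over `K`. For a field `L` containing `K`, `Cone a k L` is the set of the pairs `(u, x)` in
`L ^ m × L ^ s` with `a_i(u) ≠ 0` for all `i`, `x ≠ 0` and
`a_1(u) x_1 ^ k + ... + a_s(u) x_s ^ k = 0`, and `Points a k L` is its quotient by the action of the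
multiplicative group of `L` on `x`: the `L`-points of the family `V`, over an open part of the affine
space of dimension `m`, of diagonal hypersurfaces in the projective space of dimension `s - 1`. For
`m = 0`, `V` is one diagonal hypersurface. The places of `K` are the prime ideals `v ≠ 0` of `F[t]`,
with the completions `v.adicCompletion K`, and infinity, with `RatFunc.CompletionAtInfty F`.
-/

namespace Pool.Agent.Results.MP_bd895b_nt.LocalCyclesEveryConstantField

open Polynomial IsDedekindDomain WithZero Module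

section defs

variable {K : Type*} [Field K] {m s : ℕ}

/-- The pairs `(u, x)` over `L`. -/
def Cone (a : Fin s → MvPolynomial (Fin m) K) (k : ℕ) (L : Type*) [Field L] [Algebra K L] :
    Set ((Fin m → L) × (Fin s → L)) :=
  {p | (∀ i, MvPolynomial.aeval p.1 (a i) ≠ 0) ∧ p.2 ≠ 0 ∧
    ∑ i, MvPolynomial.aeval p.1 (a i) * p.2 i ^ k = 0}

/-- Two pairs lie over the same `u` and their `x` are proportional. -/
def pointsSetoid (a : Fin s → MvPolynomial (Fin m) K) (k : ℕ) (L : Type*) [Field L]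
    [Algebra K L] : Setoid (Cone a k L) where
  r x y := y.1.1 = x.1.1 ∧ ∃ c : L, c ≠ 0 ∧ ∀ i, y.1.2 i = c * x.1.2 i
  iseqv :=
    { refl := fun x => ⟨rfl, 1, one_ne_zero, fun i => (one_mul _).symm⟩
      symm := fun {x y} h => by
        obtain ⟨h0, c, hc, h⟩ := h
        exact ⟨h0.symm, c⁻¹, inv_ne_zero hc, fun i => by rw [h i, inv_mul_cancel_left₀ hc]⟩
      trans := fun {x y z} h h' => by
        obtain ⟨h0, c, hc, h⟩ := h
        obtain ⟨h0', d, hd, h'⟩ := h'
        exact ⟨h0'.trans h0, d * c, mul_ne_zero hd hc, fun i => by rw [h' i, h i, mul_assoc]⟩ }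

/-- The `L`-points of `V`. -/
def Points (a : Fin s → MvPolynomial (Fin m) K) (k : ℕ) (L : Type*) [Field L] [Algebra K L] :
    Type _ :=
  Quotient (pointsSetoid a k L)

/-- The point of `V` given by a pair. -/
def point {a : Fin s → MvPolynomial (Fin m) K} {k : ℕ} {L : Type*} [Field L] [Algebra K L]
    (x : Cone a k L) : Points a k L :=
  Quotient.mk (pointsSetoid a k L) x

/-- The pairs `p` and `q` are equal to the precision `n`. -/
def Close {L : Type*} [Field L] (val : Valuation L (WithZero (Multiplicative ℤ))) (n : ℕ)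
    (p q : (Fin m → L) × (Fin s → L)) : Prop :=
  (∀ j, val (p.1 j - q.1 j) ≤ exp (-(n : ℤ))) ∧ ∀ i, val (p.2 i - q.2 i) ≤ exp (-(n : ℤ))

/-- The image of a pair. -/
def push {L : Type*} (f : K → L) (q : (Fin m → K) × (Fin s → K)) : (Fin m → L) × (Fin s → L) :=
  (fun j => f (q.1 j), fun i => f (q.2 i))

/-- The pair `q` over `K` agrees to the precision `n` with the point `R` of `V` over `L` (a completion
of `K`): `R` is given by a pair `y` over `L` whose `x`-coordinates have the maximal absolute value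
`1`, and `q` and `y` are equal to the precision `n`. -/
def Approx {a : Fin s → MvPolynomial (Fin m) K} {k : ℕ}
    {L : Type*} [Field L] [Algebra K L] [Valued L (WithZero (Multiplicative ℤ))] (n : ℕ)
    (R : Points a k L) (q : (Fin m → K) × (Fin s → K)) : Prop :=
  ∃ y : Cone a k L, point y = R ∧ (∀ i, Valued.v (y.1.2 i) ≤ 1) ∧ (∃ i, Valued.v (y.1.2 i) = 1) ∧
    Close Valued.v n (push (algebraMap K L) q) y.1

/-- The pair `p` over `L` gives a point of `V`, where `L` contains `K` by `ι`. -/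
def OnV {L : Type*} [Field L] (ι : K →+* L) (a : Fin s → MvPolynomial (Fin m) K) (k : ℕ)
    (p : (Fin m → L) × (Fin s → L)) : Prop :=
  p ∈ Cone (fun i => MvPolynomial.map ι (a i)) k L

/-- The degree of `L` over `K`, where `L` contains `K` by `ι`. -/
noncomputable def degOf {L : Type*} [Field L] (ι : K →+* L) : ℕ :=
  @Module.finrank K L _ _ ι.toAlgebra.toModule

end defs

section ext

variable {F : Type*} [Field F] {m s : ℕ} {E : Type*} [Field E] [Algebra F E]

/-- `ι` is the inclusion of `F(t)` in `E(t)`: it maps the variable to the variable, and it is the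
inclusion of `F` in `E` on the constants. -/
def IsInclusion (ι : RatFunc F →+* RatFunc E) : Prop :=
  ι RatFunc.X = RatFunc.X ∧ ∀ c : F, ι (RatFunc.C c) = RatFunc.C (algebraMap F E c)

/-- The pair `p` over `E(t)` and the pair `q` over `F(t)` are equal to the precision `n` at all places
of `E(t)` over `v`. -/
def NearOver (n : ℕ) (v : HeightOneSpectrum F[X]) (ι : RatFunc F →+* RatFunc E)
    (p : (Fin m → RatFunc E) × (Fin s → RatFunc E))
    (q : (Fin m → RatFunc F) × (Fin s → RatFunc F)) : Prop :=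
  ∀ w : HeightOneSpectrum E[X], (∀ f ∈ v.asIdeal, f.map (algebraMap F E) ∈ w.asIdeal) →
    Close (w.valuation (RatFunc E)) n p (push ι q)

/-- The same at infinity. -/
def NearOverInf (n : ℕ) (ι : RatFunc F →+* RatFunc E)
    (p : (Fin m → RatFunc E) × (Fin s → RatFunc E))
    (q : (Fin m → RatFunc F) × (Fin s → RatFunc F)) : Prop :=
  Close (@RatFunc.inftyValuation E _ (Classical.decEq _)) n p (push ι q)

end ext

/-- A point of `V` over a field `E(t)`, where `E` is a finite extension of `F`. -/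
structure GlobalPoint {F : Type*} [Field F] {m s : ℕ}
    (a : Fin s → MvPolynomial (Fin m) (RatFunc F)) (k : ℕ) where
  /-- The field of constants. -/
  E : Type
  /-- It is a field. -/
  [field : Field E]
  /-- It contains `F`. -/
  [algebra : Algebra F E]
  /-- It is finite over `F`. -/
  finite : FiniteDimensional F E
  /-- The inclusion of `F(t)` in `E(t)`. -/
  ι : RatFunc F →+* RatFunc E
  /-- It is the inclusion. -/
  isInclusion : IsInclusion ι
  /-- The pair `(u, x)` over `E(t)`. -/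
  pair : (Fin m → RatFunc E) × (Fin s → RatFunc E)
  /-- It gives a point of `V`. -/
  onV : OnV ι a k pair

attribute [instance] GlobalPoint.field GlobalPoint.algebra

section near

variable {F : Type*} [Field F] {m s : ℕ} {a : Fin s → MvPolynomial (Fin m) (RatFunc F)} {k : ℕ}

/-- The degree over `K = F(t)` of the field `E(t)`: the degree of the zero-cycle of the point. -/
noncomputable def GlobalPoint.deg (P : GlobalPoint a k) : ℕ := degOf P.ι

/-- The `K_v`-points of `V`. -/
def LocalPoints (a : Fin s → MvPolynomial (Fin m) (RatFunc F)) (k : ℕ)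
    (v : HeightOneSpectrum F[X]) : Type _ :=
  Points a k (v.adicCompletion (RatFunc F))

/-- The `K_∞`-points of `V`. -/
def InftyPoints [DecidableEq (RatFunc F)] (a : Fin s → MvPolynomial (Fin m) (RatFunc F)) (k : ℕ) :
    Type _ :=
  Points a k (RatFunc.CompletionAtInfty F)

/-- The pair `q` over `K` agrees to the precision `n` with the point `R` of `V` over `K_v`. -/
def ApproxFin {v : HeightOneSpectrum F[X]} (n : ℕ) (R : LocalPoints a k v)
    (q : (Fin m → RatFunc F) × (Fin s → RatFunc F)) : Prop :=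
  Approx (L := v.adicCompletion (RatFunc F)) n R q

/-- The same at infinity. -/
def ApproxInf [DecidableEq (RatFunc F)] (n : ℕ) (R : InftyPoints a k)
    (q : (Fin m → RatFunc F) × (Fin s → RatFunc F)) : Prop :=
  Approx (L := RatFunc.CompletionAtInfty F) n R q

/-- At all places of `E(t)` over `v`, the point `P` of `V` over `E(t)` agrees to the precision `n`
with the point `R` of `V` over `K_v`: there is a pair `q` over `K` that agrees to the precision `n`
with `R`, such that `P` and `q` are equal to the precision `n` at all places of `E(t)` over `v`. -/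
def NearFin {v : HeightOneSpectrum F[X]} (n : ℕ) (P : GlobalPoint a k) (R : LocalPoints a k v) :
    Prop :=
  ∃ q, ApproxFin n R q ∧ NearOver n v P.ι P.pair q

/-- The same at the places at infinity of `K` and `E(t)`. -/
def NearInf [DecidableEq (RatFunc F)] (n : ℕ) (P : GlobalPoint a k) (R : InftyPoints a k) : Prop :=
  ∃ q, ApproxInf n R q ∧ NearOverInf n P.ι P.pair q

/-- The zero-cycle `∑ μ_j Q_j` approximates the formal sum `z` of `K_v`-points: `Q_j` is near to a
`K_v`-point `R_j` at all places over `v`, and `z = ∑ μ_j deg(Q_j) R_j`. -/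
def CycleNearFin {v : HeightOneSpectrum F[X]} (n : ℕ) {J : Type} [Fintype J] (μ : J → ℤ)
    (Q : J → GlobalPoint a k) (z : LocalPoints a k v →₀ ℤ) : Prop :=
  ∃ R : J → LocalPoints a k v, (∀ j, NearFin n (Q j) (R j)) ∧
    z = ∑ j, Finsupp.single (R j) (μ j * ((Q j).deg : ℤ))

/-- The same at infinity. -/
def CycleNearInf [DecidableEq (RatFunc F)] (n : ℕ) {J : Type} [Fintype J] (μ : J → ℤ)
    (Q : J → GlobalPoint a k) (z : InftyPoints a k →₀ ℤ) : Prop :=
  ∃ R : J → InftyPoints a k, (∀ j, NearInf n (Q j) (R j)) ∧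
    z = ∑ j, Finsupp.single (R j) (μ j * ((Q j).deg : ℤ))

/-- `X` is not empty and the sum of the coefficients of `z` is `δ`. -/
def HasDegree {X : Type*} (z : X →₀ ℤ) (δ : ℤ) : Prop :=
  Nonempty X ∧ z.sum (fun _ c => c) = δ

/-- Let `R_v` be a `K_v`-point of `V` for each place of `S` (the finite places in `S` and, if `b` is
true, infinity). There is a point of `V` over `E(t)`, where `E` is a finite extension of `F` and
`E(t)` has degree `r` over `F(t)`, near to `R_v` at all places of `E(t)` over `v`, for all places `v`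
of `S`. -/
def ApproximatesPoints [DecidableEq (RatFunc F)] (a : Fin s → MvPolynomial (Fin m) (RatFunc F))
    (k n : ℕ) (S : Finset (HeightOneSpectrum F[X])) (b : Prop) (r : ℕ) : Prop :=
  ∀ (R : ∀ v ∈ S, LocalPoints a k v) (Ri : b → InftyPoints a k),
    ∃ P : GlobalPoint a k, P.deg = r ∧ (∀ v hv, NearFin n P (R v hv)) ∧ ∀ hb, NearInf n P (Ri hb)

/-- Let `δ` be an integer, and let `z_v` be, for each place of `S`, a formal sum with integral
coefficients of `K_v`-points of `V`, with sum of the coefficients `δ` (and let `V` have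
`K_v`-points). There is a zero-cycle `∑ μ_j Q_j` on `V` of degree `δ`, where the `Q_j` are points
over fields `E_j(t)`, which approximates all `z_v`. -/
def ApproximatesCycles [DecidableEq (RatFunc F)] (a : Fin s → MvPolynomial (Fin m) (RatFunc F))
    (k n : ℕ) (S : Finset (HeightOneSpectrum F[X])) (b : Prop) (δ : ℤ) : Prop :=
  ∀ (z : ∀ v : HeightOneSpectrum F[X], LocalPoints a k v →₀ ℤ) (zi : InftyPoints a k →₀ ℤ),
    (∀ v ∈ S, HasDegree (z v) δ) → (b → HasDegree zi δ) →
    ∃ (J : Type) (_ : Fintype J) (μ : J → ℤ) (Q : J → GlobalPoint a k),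
      ∑ j, μ j * (Q j).deg = δ ∧ (∀ v ∈ S, CycleNearFin n μ Q (z v)) ∧
      (b → CycleNearInf n μ Q zi)

end near

/-- Normalised coordinates. -/
lemma exists_norm {K L : Type*} [Field K] [Field L] [Valued L (WithZero (Multiplicative ℤ))]
    [Algebra K L] {m s k : ℕ} (hs : 1 ≤ s) {a : Fin s → MvPolynomial (Fin m) K}
    (R : Points a k L) : ∃ y : Cone a k L, point y = R ∧
      (∀ i, (Valued.v (y.1.2 i) : WithZero (Multiplicative ℤ)) ≤ 1) ∧
      ∃ i, (Valued.v (y.1.2 i) : WithZero (Multiplicative ℤ)) = 1 := by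
  obtain ⟨y, hy⟩ := Quotient.exists_rep R
  have : Nonempty (Fin s) := ⟨⟨0, by omega⟩⟩
  obtain ⟨i₀, hi₀⟩ := Finite.exists_max fun i =>
    (Valued.v (y.1.2 i) : WithZero (Multiplicative ℤ))
  have h0 : y.1.2 i₀ ≠ 0 := by
    intro h
    apply y.2.2.1
    funext i
    have h1 := hi₀ i
    rw [h, map_zero] at h1
    exact (Valuation.zero_iff _).1 (le_antisymm h1 zero_le)
  have hv0 : (0 : WithZero (Multiplicative ℤ)) < Valued.v (y.1.2 i₀) :=
    (Valuation.pos_iff _).2 h0
  refine ⟨⟨(y.1.1, fun i => (y.1.2 i₀)⁻¹ * y.1.2 i), y.2.1, ?_, ?_⟩, ?_, ?_, i₀, ?_⟩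
  · intro h
    have h1 : (y.1.2 i₀)⁻¹ * y.1.2 i₀ = 0 := congrFun h i₀
    rw [inv_mul_cancel₀ h0] at h1
    exact one_ne_zero h1
  · have h1 : ∑ i, MvPolynomial.aeval y.1.1 (a i) * ((y.1.2 i₀)⁻¹ * y.1.2 i) ^ k =
        ((y.1.2 i₀)⁻¹) ^ k * ∑ i, MvPolynomial.aeval y.1.1 (a i) * y.1.2 i ^ k := by
      rw [Finset.mul_sum]
      exact Finset.sum_congr rfl (fun i _ => by rw [mul_pow]; ring)
    have h2 : ∑ i, MvPolynomial.aeval y.1.1 (a i) * ((y.1.2 i₀)⁻¹ * y.1.2 i) ^ k = 0 := by
      rw [h1, y.2.2.2, mul_zero]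
    exact h2
  · rw [← hy]
    refine Quotient.sound (a := _) (b := y) ⟨rfl, y.1.2 i₀, h0, fun i => ?_⟩
    show y.1.2 i = y.1.2 i₀ * ((y.1.2 i₀)⁻¹ * y.1.2 i)
    rw [mul_inv_cancel_left₀ h0]
  · intro i
    show (Valued.v ((y.1.2 i₀)⁻¹ * y.1.2 i) : WithZero (Multiplicative ℤ)) ≤ 1
    rw [map_mul, map_inv₀]
    exact inv_mul_le_one_of_le₀ (hi₀ i) hv0.le
  · show (Valued.v ((y.1.2 i₀)⁻¹ * y.1.2 i₀) : WithZero (Multiplicative ℤ)) = 1
    rw [inv_mul_cancel₀ h0, map_one]

open Pool.Agent.H598.FI Pool.Agent.H598.WA in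
/-- The statement about points. -/
lemma points {F : Type*} [Field F] [Fintype F] [DecidableEq (RatFunc F)] {k : ℕ}
    (hk : 2 ≤ k) (hchar : k < ringChar F) {m s : ℕ} (hs : 2 * k + 1 ≤ s)
    {a : Fin s → MvPolynomial (Fin m) (RatFunc F)} (ha : ∀ i, a i ≠ 0) {r : ℕ}
    (hr : k * 2 ^ (k + 2) ≤ r) (n : ℕ) (S : Finset (HeightOneSpectrum F[X])) (b : Prop) :
    ApproximatesPoints a k n S b r := by
  classical
  intro R Ri
  have hr1 : 1 ≤ r := by
    have : 0 < k * 2 ^ (k + 2) := by positivity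
    omega
  obtain ⟨E, hE, hEA, hfd, hE2⟩ := Pool.Agent.H598.ZC.exists_ext F hr1
  -- a point of the base
  have hA : ∃ u0 : Fin m → RatFunc F, ∀ i, MvPolynomial.aeval u0 (a i) ≠ 0 := by
    have hinf : Infinite (RatFunc F) :=
      Infinite.of_injective (algebraMap F[X] (RatFunc F)) (RatFunc.algebraMap_injective F)
    have hprod : ∏ i, a i ≠ 0 := Finset.prod_ne_zero_iff.2 (fun i _ => ha i)
    by_contra hcon
    push Not at hcon
    apply hprod
    apply MvPolynomial.funext
    intro u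
    obtain ⟨i, hi⟩ := hcon u
    rw [map_zero, MvPolynomial.eval_prod]
    exact Finset.prod_eq_zero (Finset.mem_univ i) hi
  have h1 : ∀ v : HeightOneSpectrum F[X], ∃ y : (Fin m → v.adicCompletion (RatFunc F)) ×
      (Fin s → v.adicCompletion (RatFunc F)), ∀ hv : v ∈ S, ∃ hy : y ∈ Cone a k _,
      point ⟨y, hy⟩ = R v hv ∧
      (∀ i, (Valued.v (y.2 i) : WithZero (Multiplicative ℤ)) ≤ 1) ∧
      ∃ i, (Valued.v (y.2 i) : WithZero (Multiplicative ℤ)) = 1 := by
    intro v
    by_cases hv : v ∈ S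
    · obtain ⟨y, hy1, hy2, hy3⟩ := exists_norm (L := v.adicCompletion (RatFunc F))
        (show 1 ≤ s by omega) (R v hv)
      exact ⟨y.1, fun _ => ⟨y.2, hy1, hy2, hy3⟩⟩
    · exact ⟨0, fun h => absurd h hv⟩
  choose y hy using h1
  have h2 : ∃ y : (Fin m → RatFunc.CompletionAtInfty F) ×
      (Fin s → RatFunc.CompletionAtInfty F), ∀ hb : b, ∃ hy : y ∈ Cone a k _,
      point ⟨y, hy⟩ = Ri hb ∧
      (∀ i, (Valued.v (y.2 i) : WithZero (Multiplicative ℤ)) ≤ 1) ∧
      ∃ i, (Valued.v (y.2 i) : WithZero (Multiplicative ℤ)) = 1 := by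
    by_cases hb : b
    · obtain ⟨y, hy1, hy2, hy3⟩ := exists_norm (L := RatFunc.CompletionAtInfty F)
        (show 1 ≤ s by omega) (Ri hb)
      exact ⟨y.1, fun _ => ⟨y.2, hy1, hy2, hy3⟩⟩
    · exact ⟨0, fun h => absurd h hb⟩
  obtain ⟨yi, hyi⟩ := h2
  obtain ⟨c, z, d1, d2, d3, d4, d5⟩ := ext_explicit hk hchar hs a hA E (by rw [hE2]; exact hr) S y
    (fun v hv => (hy v hv).1.1) (fun v hv => (hy v hv).1.2.1) (fun v hv => (hy v hv).1.2.2)
    b yi (fun hb => (hyi hb).1.1) (fun hb => (hyi hb).1.2.1) (fun hb => (hyi hb).1.2.2)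
    _ (fun v _ => ball_nhds (nt_fin v) (y v) (δ := exp (-(n : ℤ))) exp_ne_zero)
    _ (fun _ => ball_nhds nt_inf yi (δ := exp (-(n : ℤ))) exp_ne_zero) n
  refine ⟨⟨E, hfd, em F E, ⟨Pool.Agent.H598.ZC.algE_X F E, Pool.Agent.H598.ZC.algE_C F E⟩,
    (c, z), d1, d2, d3⟩, ?_, fun v hv => ?_, fun hb => ?_⟩
  · rw [← hE2]
    exact Pool.Agent.H598.ZC.finrank_algE F E
  · obtain ⟨hy1, hy2, hy3, hy4⟩ := hy v hv
    obtain ⟨u, x, e1, e2⟩ := d4 v hv
    refine ⟨(u, x), ⟨⟨y v, hy1⟩, hy2, hy3, hy4, fun j => (e1.1 j).le, fun i => (e1.2 i).le⟩, ?_⟩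
    intro w hw
    refine e2 w (hw (gn v) ?_)
    rw [gn_span v]
    exact Ideal.mem_span_singleton_self _
  · obtain ⟨hy1, hy2, hy3, hy4⟩ := hyi hb
    obtain ⟨u, x, e1, e2, e3⟩ := d5 hb
    exact ⟨(u, x), ⟨⟨yi, hy1⟩, hy2, hy3, hy4, fun j => (e1.1 j).le, fun i => (e1.2 i).le⟩, e2, e3⟩

/-- A sum over signs and degrees. -/
lemma sum_aux {N N' : ℕ} {A : Type*} [AddCommGroup A] (g : Fin N ⊕ Fin N' → ℤ →+ A) (r : ℤ)
    (μ d : (Fin N ⊕ Fin N') × Bool → ℤ)
    (h1 : ∀ t, μ (t, true) = Sum.elim (fun _ => 1) (fun _ => -1) t)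
    (h2 : ∀ t, μ (t, false) = -Sum.elim (fun _ => 1) (fun _ => -1) t)
    (h3 : ∀ t, d (t, true) = r + 1) (h4 : ∀ t, d (t, false) = r) :
    ∑ j, g j.1 (μ j * d j) = ∑ i, g (Sum.inl i) 1 - ∑ i, g (Sum.inr i) 1 := by
  have h5 : ∑ j, g j.1 (μ j * d j) = ∑ t, g t (Sum.elim (fun _ => 1) (fun _ => -1) t) := by
    rw [Fintype.sum_prod_type]
    refine Finset.sum_congr rfl (fun t _ => ?_)
    rw [Fintype.sum_bool]
    show g t (μ (t, true) * d (t, true)) + g t (μ (t, false) * d (t, false)) = g t _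
    rw [← map_add, h1, h2, h3, h4]
    congr 1
    ring
  rw [h5, Fintype.sum_sum_type, sub_eq_add_neg, ← Finset.sum_neg_distrib]
  congr 1
  refine Finset.sum_congr rfl (fun i _ => ?_)
  rw [← map_neg]
  rfl

/-- The statement about cycles. -/
lemma cycles {F : Type*} [Field F] [Fintype F] [DecidableEq (RatFunc F)] {k : ℕ}
    (hk : 2 ≤ k) (hchar : k < ringChar F) {m s : ℕ} (hs : 2 * k + 1 ≤ s)
    {a : Fin s → MvPolynomial (Fin m) (RatFunc F)} (ha : ∀ i, a i ≠ 0)
    (n : ℕ) (S : Finset (HeightOneSpectrum F[X])) (b : Prop) (δ : ℤ) :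
    ApproximatesCycles a k n S b δ := by
  intro z zi hz hzi
  classical
  obtain ⟨r, hr⟩ : ∃ r : ℕ, k * 2 ^ (k + 2) = r := ⟨_, rfl⟩
  let X : {v // v ∈ S} ⊕ {_x : Unit // b} → Type _ :=
    Sum.elim (fun v => LocalPoints a k v.1) (fun _ => InftyPoints a k)
  have hne : ∀ i, Nonempty (X i) := by
    rintro (v | x)
    · exact (hz v.1 v.2).1
    · exact (hzi x.2).1
  let Z : ∀ i, X i →₀ ℤ := fun i => match i with
    | .inl v => z v.1
    | .inr _ => zi
  obtain ⟨N, N', p, q, hN, hpq⟩ := Pool.Agent.H598.FI.signs X Z δ (by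
    rintro (v | x)
    · exact (hz v.1 v.2).2
    · exact (hzi x.2).2)
  have hpv : ∀ (v : HeightOneSpectrum F[X]) (hv : v ∈ S),
      ∃ f : Fin N ⊕ Fin N' → LocalPoints a k v,
      z v = ∑ j, Finsupp.single (f (Sum.inl j)) (1 : ℤ) -
        ∑ j, Finsupp.single (f (Sum.inr j)) (1 : ℤ) := by
    intro v hv
    exact ⟨Sum.elim (p (Sum.inl ⟨v, hv⟩)) (q (Sum.inl ⟨v, hv⟩)), hpq (Sum.inl ⟨v, hv⟩)⟩
  have hpi : ∀ hb : b, ∃ f : Fin N ⊕ Fin N' → InftyPoints a k,
      zi = ∑ j, Finsupp.single (f (Sum.inl j)) (1 : ℤ) -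
        ∑ j, Finsupp.single (f (Sum.inr j)) (1 : ℤ) := by
    intro hb
    exact ⟨Sum.elim (p (Sum.inr ⟨(), hb⟩)) (q (Sum.inr ⟨(), hb⟩)), hpq (Sum.inr ⟨(), hb⟩)⟩
  choose Rv hRv using hpv
  choose Ri hRi using hpi
  have hP : ∀ j : (Fin N ⊕ Fin N') × Bool, ∃ P : GlobalPoint a k,
      P.deg = r + (if j.2 = true then 1 else 0) ∧
      (∀ (v : HeightOneSpectrum F[X]) (hv : v ∈ S), NearFin n P (Rv v hv j.1)) ∧
      ∀ hb : b, NearInf n P (Ri hb j.1) := fun j =>
    points hk hchar hs ha (by rw [hr]; exact Nat.le_add_right _ _) n S b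
      (fun v hv => Rv v hv j.1) (fun hb => Ri hb j.1)
  choose Q hQ1 hQ2 hQ3 using hP
  obtain ⟨μ, hμ⟩ : ∃ μ : (Fin N ⊕ Fin N') × Bool → ℤ,
      μ = fun j => if j.2 = true then Sum.elim (fun _ => 1) (fun _ => -1) j.1 else
        -Sum.elim (fun _ => 1) (fun _ => -1) j.1 := ⟨_, rfl⟩
  have k1 : ∀ t, μ (t, true) = Sum.elim (fun _ => 1) (fun _ => -1) t :=
    fun t => by rw [hμ]; exact if_pos rfl
  have k2 : ∀ t, μ (t, false) = -Sum.elim (fun _ => 1) (fun _ => -1) t :=
    fun t => by rw [hμ]; exact if_neg Bool.false_ne_true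
  have k3 : ∀ t, ((Q (t, true)).deg : ℤ) = r + 1 := fun t => by
    rw [hQ1, if_pos rfl]
    push_cast
    ring
  have k4 : ∀ t, ((Q (t, false)).deg : ℤ) = r := fun t => by
    rw [hQ1, if_neg Bool.false_ne_true, Nat.add_zero]
  refine ⟨(Fin N ⊕ Fin N') × Bool, inferInstance, μ, Q, ?_, fun v hv => ?_, fun hb => ?_⟩
  · have h1 := sum_aux (fun _ => AddMonoidHom.id ℤ) r μ (fun j => ((Q j).deg : ℤ)) k1 k2 k3 k4
    rw [← hN]
    refine h1.trans ?_
    rw [Finset.sum_const, Finset.sum_const, Finset.card_univ, Finset.card_univ, Fintype.card_fin,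
      Fintype.card_fin, nsmul_eq_mul, nsmul_eq_mul]
    show (N : ℤ) * 1 - (N' : ℤ) * 1 = N - N'
    ring
  · refine ⟨fun j => Rv v hv j.1, fun j => hQ2 j v hv, ?_⟩
    rw [hRv v hv]
    exact (sum_aux (fun t => Finsupp.singleAddHom (Rv v hv t)) r μ (fun j => ((Q j).deg : ℤ))
      k1 k2 k3 k4).symm
  · refine ⟨fun j => Ri hb j.1, fun j => hQ3 j hb, ?_⟩
    rw [hRi hb]
    exact (sum_aux (fun t => Finsupp.singleAddHom (Ri hb t)) r μ (fun j => ((Q j).deg : ℤ))
      k1 k2 k3 k4).symm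

/-- Let `F` be ANY finite field of characteristic larger than `k ≥ 2`, let `s ≥ 2k + 1`, and let
`a_1, ..., a_s` be non-zero polynomials in `m` variables over `K = F(t)`. Let `S` be a finite set of
places of `K`: the finite places in `S` and, if `b` is true, infinity. Let `n` be a precision.

(1) Let `R_v` be a `K_v`-point of `V` for each place of `S`. For every `r ≥ k 2 ^ (k + 2)`, there is
a point of `V` over `E(t)`, where `E` is the extension of degree `r` of `F`, near to `R_v` at all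
places of `E(t)` over `v`, for all places `v` of `S`.

(2) Let `δ` be an integer, and let `z_v` be, for each place of `S`, a formal sum with integral
coefficients of `K_v`-points of `V`, with sum of the coefficients `δ` (and let `V` have
`K_v`-points). There is a zero-cycle `∑ μ_j Q_j` on `V` of degree `δ`, where the `Q_j` are points
over fields `E_j(t)`, which approximates all `z_v`: for each `v`, `Q_j` is near to a `K_v`-point
`R_j` at all places over `v`, and `z_v = ∑ μ_j deg(Q_j) R_j`. -/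
theorem result {F : Type*} [Field F] [Fintype F] [DecidableEq (RatFunc F)] {k : ℕ}
    (hk : 2 ≤ k) (hchar : k < ringChar F) {m s : ℕ} (hs : 2 * k + 1 ≤ s)
    (a : Fin s → MvPolynomial (Fin m) (RatFunc F)) (ha : ∀ i, a i ≠ 0)
    (n : ℕ) (S : Finset (HeightOneSpectrum F[X])) (b : Prop) :
    (∀ r : ℕ, k * 2 ^ (k + 2) ≤ r → ApproximatesPoints a k n S b r) ∧
    ∀ δ : ℤ, ApproximatesCycles a k n S b δ :=
  ⟨fun _ hr => points hk hchar hs ha hr n S b, fun δ => cycles hk hchar hs ha n S b δ⟩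

end Pool.Agent.Results.MP_bd895b_nt.LocalCyclesEveryConstantField
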