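import Pool.Agent.H888.SF.Pos
import Pool.Agent.H888.SF.Cycles

open Filter Topology MvPolynomial

namespace Pool.Agent.Results.MP_bd895b_nt.ZeroCyclesSumsOfForms100

/-- Vectors consisting of `s` blocks; the block `i` has `n i` coordinates in `K`. -/
abbrev Vec {s : ℕ} (n : Fin s → ℕ) (K : Type) := ∀ i : Fin s, Fin (n i) → K

/-- The form `F` in `m` variables is nonsingular: its partial derivatives have no nontrivial common
zero over any field of characteristic zero. -/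
def Nonsingular {m : ℕ} (F : MvPolynomial (Fin m) ℤ) : Prop :=
  ∀ (K : Type) [Field K] [CharZero K] (x : Fin m → K), (∀ l, aeval x (pderiv l F) = 0) → x = 0

/-- The set `X_a(K)` of the points over the field `K` of the hypersurface `X_a : ∑ aᵢ Fᵢ(yᵢ) = 0` in
the projective space of dimension `∑ n i - 1`. -/
def Points {s : ℕ} {n : Fin s → ℕ} (F : ∀ i, MvPolynomial (Fin (n i)) ℤ) (a : Fin s → ℤ) (K : Type)
    [Field K] : Type :=
  {P : Projectivization K (Vec n K) // ∑ i, (a i : K) * aeval (P.rep i) (F i) = 0}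

/-- `X_a` has points over `ℝ` and over `ℚ_p` for every prime `p`. -/
def ELS {s : ℕ} {n : Fin s → ℕ} (F : ∀ i, MvPolynomial (Fin (n i)) ℤ) (a : Fin s → ℤ) : Prop :=
  Nonempty (Points F a ℝ) ∧ ∀ (p : ℕ) [Fact p.Prime], Nonempty (Points F a ℚ_[p])

/-- The everywhere locally soluble members of the family with `0 < |aᵢ| ≤ H`. -/
def elsSet {s : ℕ} {n : Fin s → ℕ} (F : ∀ i, MvPolynomial (Fin (n i)) ℤ) (H : ℕ) : Set (Fin s → ℤ) :=
  {a | (∀ i, a i ≠ 0 ∧ |a i| ≤ (H : ℤ)) ∧ ELS F a}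

/-- The zero-cycles of degree `d` on `X_a` over `K` which are supported in points of `X_a(K)`. -/
def Cycles {s : ℕ} {n : Fin s → ℕ} (F : ∀ i, MvPolynomial (Fin (n i)) ℤ) (a : Fin s → ℤ) (K : Type)
    [Field K] (d : ℤ) : Set (Points F a K →₀ ℤ) := {z | z.sum (fun _ c => c) = d}

/-- The point `R` of `X_a(ℚ)` is close to the point `P` of `X_a(K)` to precision `δ`: for suitable
homogeneous coordinates `x` of `R` and `y` of `P` all coordinates of `y - x` are at most `δ ‖y‖`, where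
`‖y‖` is the largest absolute value of a coordinate of `y`. -/
def Close (δ : ℝ) {s : ℕ} {n : Fin s → ℕ} {F : ∀ i, MvPolynomial (Fin (n i)) ℤ} {a : Fin s → ℤ}
    {K : Type} [NormedField K] (P : Points F a K) (R : Points F a ℚ) : Prop :=
  ∃ c : K, c ≠ 0 ∧ ∀ i l, ‖P.1.rep i l - c * (R.1.rep i l : K)‖ ≤ δ * ‖P.1.rep‖

/-- The zero-cycle `z` over `ℚ` is close to the zero-cycle `w` over `K` to precision `δ`: one can write
`w = ∑ c j P j` and `z = ∑ c j R j` with the same integers `c j` and with `R j` close to `P j`. -/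
def CloseCycles (δ : ℝ) {s : ℕ} {n : Fin s → ℕ} {F : ∀ i, MvPolynomial (Fin (n i)) ℤ} {a : Fin s → ℤ}
    {K : Type} [NormedField K] (w : Points F a K →₀ ℤ) (z : Points F a ℚ →₀ ℤ) : Prop :=
  ∃ (r : ℕ) (c : Fin r → ℤ) (P : Fin r → Points F a K) (R : Fin r → Points F a ℚ),
    w = ∑ j, Finsupp.single (P j) (c j) ∧ z = ∑ j, Finsupp.single (R j) (c j) ∧
    ∀ j, Close δ (P j) (R j)

/-- Approximation of zero-cycles to precision `m`: for every integer `d`, every zero-cycle `y` of degree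
`d` supported in `X_a(ℝ)` and all zero-cycles `w p` of degree `d` supported in `X_a(ℚ_p)`, `p ≤ m`, there
is one zero-cycle of degree `d` supported in `X_a(ℚ)` which is `1/m`-close to `y` and `p^(-m)`-close to
`w p` for all primes `p ≤ m`. -/
def CycleApproximation {s : ℕ} {n : Fin s → ℕ} (F : ∀ i, MvPolynomial (Fin (n i)) ℤ) (m : ℕ)
    (a : Fin s → ℤ) : Prop :=
  ∀ (d : ℤ) (y : Points F a ℝ →₀ ℤ) (w : ∀ (p : ℕ) [Fact p.Prime], Points F a ℚ_[p] →₀ ℤ),
    y ∈ Cycles F a ℝ d → (∀ (p : ℕ) [Fact p.Prime], p ≤ m → w p ∈ Cycles F a ℚ_[p] d) →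
    ∃ z ∈ Cycles F a ℚ d, CloseCycles (1 / m) y z ∧
      ∀ (p : ℕ) [Fact p.Prime], p ≤ m → CloseCycles ((p : ℝ) ^ (-(m : ℤ))) (w p) z

section Proof

open Pool.Agent.H888.SF

variable {k s : ℕ} {n : Fin s → ℕ} {F : ∀ i, MvPolynomial (Fin (n i)) ℤ}

theorem zer_smul (hF : ∀ i, (F i).IsHomogeneous k) (a : Fin s → ℤ) {K : Type} [Field K] (c : K)
    (y : Vec n K) (hy : ∑ i, (a i : K) * aeval (y i) (F i) = 0) :
    ∑ i, (a i : K) * aeval ((c • y) i) (F i) = 0 := by
  have h := val_scale hF (fun i => (a i : K)) c y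
  have h0 : val F (fun i => (a i : K)) y = 0 := hy
  rw [h0, mul_zero] at h
  exact h

theorem exists_point (hF : ∀ i, (F i).IsHomogeneous k) (a : Fin s → ℤ) {K : Type} [Field K]
    (x : Vec n K) (hx0 : x ≠ 0) (hx : ∑ i, (a i : K) * aeval (x i) (F i) = 0) :
    ∃ (P : Points F a K) (c : Kˣ), P.1.rep = c • x := by
  obtain ⟨c, hc⟩ := Projectivization.exists_smul_eq_mk_rep K x hx0
  refine ⟨⟨Projectivization.mk K x hx0, ?_⟩, c, hc.symm⟩
  rw [← hc]
  exact zer_smul hF a (c : K) x hx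

theorem zer_rep {a : Fin s → ℤ} {K : Type} [Field K] (P : Points F a K) : Zer F a P.1.rep :=
  ⟨P.1.rep_nonzero, P.2⟩

theorem nonempty_iff (hF : ∀ i, (F i).IsHomogeneous k) (a : Fin s → ℤ) (K : Type) [Field K] :
    Nonempty (Points F a K) ↔ ∃ y : Vec n K, Zer F a y := by
  constructor
  · rintro ⟨P⟩
    exact ⟨_, zer_rep P⟩
  · rintro ⟨y, hy0, hy⟩
    obtain ⟨P, -⟩ := exists_point hF a y hy0 hy
    exact ⟨P⟩

theorem els_iff (hF : ∀ i, (F i).IsHomogeneous k) (a : Fin s → ℤ) : ELS F a ↔ ELSF F a := by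
  unfold ELS ELSF
  rw [nonempty_iff hF a ℝ]
  refine and_congr_right (fun _ => ?_)
  exact forall_congr' fun p => forall_congr' fun hp => nonempty_iff hF a ℚ_[p]

theorem sum_split {X : Type} {N : ℕ} (U V : Fin N → X) (b : X) (d : ℤ) :
    (∑ i, Finsupp.single (U i) (1 : ℤ)) - (∑ i, Finsupp.single (V i) (1 : ℤ)) + Finsupp.single b d =
      ∑ i : Fin (N + N + 1), Finsupp.single (Fin.append (Fin.append U V) (fun _ : Fin 1 => b) i)
        (Fin.append (Fin.append (fun _ : Fin N => (1 : ℤ)) (fun _ : Fin N => (-1 : ℤ)))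
          (fun _ : Fin 1 => d) i) := by
  rw [Fin.sum_univ_add, Fin.sum_univ_add]
  simp only [Fin.append_left, Fin.append_right, Finsupp.single_neg, Finset.sum_neg_distrib]
  rw [sub_eq_add_neg]
  simp

theorem deg_split {X : Type} {N : ℕ} (U V : Fin N → X) (b : X) (d : ℤ) :
    ((∑ i, Finsupp.single (U i) (1 : ℤ)) - (∑ i, Finsupp.single (V i) (1 : ℤ)) +
      Finsupp.single b d).sum (fun _ c => c) = d := by
  classical
  have hdeg : ∀ (U : Fin N → X), (∑ i, Finsupp.single (U i) (1 : ℤ)).sum (fun _ c => c) = (N : ℤ) := by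
    intro U
    rw [← Finsupp.sum_finsetSum_index (fun _ => rfl) (fun _ _ _ => rfl)]
    simp
  rw [Finsupp.sum_add_index' (fun _ => rfl) (fun _ _ _ => rfl),
    Finsupp.sum_sub_index (fun _ _ _ => rfl), hdeg, hdeg, sub_self, zero_add,
    Finsupp.sum_single_index rfl]

theorem closeCycles_split {a : Fin s → ℤ} {δ : ℝ} {K : Type} [NormedField K] {N : ℕ}
    (U V : Fin N → Points F a K) (b : Points F a K) (R T : Fin N → Points F a ℚ) (b' : Points F a ℚ)
    (d : ℤ) (hU : ∀ i, Close δ (U i) (R i)) (hV : ∀ i, Close δ (V i) (T i)) (hb : Close δ b b') :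
    CloseCycles δ
      ((∑ i, Finsupp.single (U i) (1 : ℤ)) - (∑ i, Finsupp.single (V i) (1 : ℤ)) + Finsupp.single b d)
      ((∑ i, Finsupp.single (R i) (1 : ℤ)) - (∑ i, Finsupp.single (T i) (1 : ℤ)) +
        Finsupp.single b' d) := by
  refine ⟨N + N + 1, _, _, _, sum_split U V b d, sum_split R T b' d, fun i => ?_⟩
  refine Fin.addCases (fun i => ?_) (fun i => ?_) i
  · rw [Fin.append_left, Fin.append_left]
    refine Fin.addCases (fun i => ?_) (fun i => ?_) i
    · rw [Fin.append_left, Fin.append_left]; exact hU i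
    · rw [Fin.append_right, Fin.append_right]; exact hV i
  · rw [Fin.append_right, Fin.append_right]; exact hb

theorem close_of {a : Fin s → ℤ} {δ : ℝ} {K : Type} [NormedField K]
    [CharZero K] (P : Points F a K) (x : Vec n ℤ) (R : Points F a ℚ) (c' : ℚˣ)
    (hR : R.1.rep = c' • (fun i l => (x i l : ℚ) : Vec n ℚ)) (h : CloseTo δ P.1.rep x) :
    Close δ P R := by
  obtain ⟨c, hc, hcx⟩ := h
  have ha0 : ((c' : ℚ) : K) ≠ 0 := by
    rw [Rat.cast_ne_zero]; exact c'.ne_zero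
  refine ⟨c / ((c' : ℚ) : K), div_ne_zero hc ha0, fun i l => ?_⟩
  have h3 : c / ((c' : ℚ) : K) * ((R.1.rep i l : ℚ) : K) = c * ((x i l : ℤ) : K) := by
    rw [hR]
    have : (c' • (fun i l => (x i l : ℚ) : Vec n ℚ)) i l = (c' : ℚ) * (x i l : ℚ) := rfl
    rw [this]
    push_cast
    field_simp
  rw [h3]
  exact hcx i l

theorem approx_of_wa (hF : ∀ i, (F i).IsHomogeneous k) {a : Fin s → ℤ} (hs : ELS F a) {m H : ℕ}
    (h : WA F m H a) : CycleApproximation F m a := by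
  classical
  intro d y w hy hw
  obtain ⟨b⟩ := hs.1
  have hbp : ∀ (p : ℕ) [Fact p.Prime], ∃ _ : Points F a ℚ_[p], True := fun p _ =>
    ⟨(hs.2 p).some, trivial⟩
  choose bp _ using hbp
  obtain ⟨N₁, hN₁⟩ := exists_diff b y
  have hNp : ∀ (p : ℕ) [Fact p.Prime], ∃ N₀ : ℕ, ∀ N, N₀ ≤ N → ∃ A B : Fin N → Points F a ℚ_[p],
      w p = (∑ i, Finsupp.single (A i) (1 : ℤ)) - (∑ i, Finsupp.single (B i) (1 : ℤ)) +
        Finsupp.single (bp p) ((w p).sum (fun _ c => c)) :=
    fun p _ => exists_diff (bp p) (w p)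
  choose Np hNp using hNp
  -- a common number of points
  obtain ⟨N, hN1, hN2⟩ : ∃ N : ℕ, N₁ ≤ N ∧ ∀ (p : ℕ) [Fact p.Prime], p ≤ m → Np p ≤ N := by
    refine ⟨N₁ + ∑ p ∈ Finset.range (m + 1), (if hp : p.Prime then @Np p ⟨hp⟩ else 0),
      Nat.le_add_right _ _, ?_⟩
    intro p hpf hp
    have h1 := Finset.single_le_sum
      (f := fun p : ℕ => (if hp : p.Prime then @Np p ⟨hp⟩ else 0)) (fun _ _ => Nat.zero_le _)
      (Finset.mem_range.mpr (by omega : p < m + 1))
    simp only [dif_pos hpf.out] at h1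
    omega
  obtain ⟨A, B, hAB⟩ := hN₁ N hN1
  have hAp : ∀ (p : ℕ) [Fact p.Prime], ∃ A B : Fin N → Points F a ℚ_[p], p ≤ m →
      w p = (∑ i, Finsupp.single (A i) (1 : ℤ)) - (∑ i, Finsupp.single (B i) (1 : ℤ)) +
        Finsupp.single (bp p) d := by
    intro p _
    by_cases hp : p ≤ m
    · obtain ⟨A, B, h⟩ := hNp p N (hN2 p hp)
      refine ⟨A, B, fun _ => ?_⟩
      have h2 : (w p).sum (fun _ c => c) = d := hw p hp
      rw [h2] at h
      exact h
    · exact ⟨fun _ => bp p, fun _ => bp p, fun h => absurd h hp⟩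
  choose Ap Bp hABp using hAp
  -- approximation of single points
  have key : ∀ (P : Points F a ℝ) (Pp : ∀ (p : ℕ) [Fact p.Prime], Points F a ℚ_[p]),
      ∃ R : Points F a ℚ, Close (1 / m) P R ∧
        ∀ (p : ℕ) [Fact p.Prime], p ≤ m → Close ((p : ℝ) ^ (-(m : ℤ))) (Pp p) R := by
    intro P Pp
    obtain ⟨x, hx0, hx, -, h1, h2⟩ := h P.1.rep (fun p _ => (Pp p).1.rep) (zer_rep P)
      (fun p _ _ => zer_rep (Pp p))
    have hx0' : (fun i l => (x i l : ℚ) : Vec n ℚ) ≠ 0 := by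
      intro h0
      apply hx0
      funext i l
      have := congrFun (congrFun h0 i) l
      simpa using this
    have hx' : ∑ i, (a i : ℚ) * aeval ((fun i l => (x i l : ℚ) : Vec n ℚ) i) (F i) = 0 := by
      have h3 : ((∑ i, a i * aeval (x i) (F i) : ℤ) : ℚ) = 0 := by rw [hx]; simp
      rw [Int.cast_sum] at h3
      rw [← h3]
      apply Finset.sum_congr rfl
      intro i _
      rw [Int.cast_mul]
      congr 1
      exact (hom_aeval (Int.castRingHom ℚ) (F i) (x i)).symm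
    obtain ⟨R, c', hR⟩ := exists_point hF a _ hx0' hx'
    exact ⟨R, close_of P x R c' hR h1, fun p _ hp => close_of (Pp p) x R c' hR (h2 p hp)⟩
  have hRA : ∀ i : Fin N, ∃ R : Points F a ℚ, Close (1 / m) (A i) R ∧
      ∀ (p : ℕ) [Fact p.Prime], p ≤ m → Close ((p : ℝ) ^ (-(m : ℤ))) (Ap p i) R :=
    fun i => key (A i) (fun p _ => Ap p i)
  have hRB : ∀ i : Fin N, ∃ R : Points F a ℚ, Close (1 / m) (B i) R ∧
      ∀ (p : ℕ) [Fact p.Prime], p ≤ m → Close ((p : ℝ) ^ (-(m : ℤ))) (Bp p i) R :=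
    fun i => key (B i) (fun p _ => Bp p i)
  obtain ⟨b', hb1, hb2⟩ := key b bp
  choose R hR1 hR2 using hRA
  choose T hT1 hT2 using hRB
  refine ⟨(∑ i, Finsupp.single (R i) (1 : ℤ)) - (∑ i, Finsupp.single (T i) (1 : ℤ)) +
    Finsupp.single b' d, deg_split R T b' d, ?_, ?_⟩
  · have h2 : y.sum (fun _ c => c) = d := hy
    rw [h2] at hAB
    rw [hAB]
    exact closeCycles_split A B b R T b' d hR1 hT1 hb1
  · intro p hpf hp
    rw [hABp p hp]
    exact closeCycles_split (Ap p) (Bp p) (bp p) R T b' d (fun i => hR2 i p hp)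
      (fun i => hT2 i p hp) (hb2 p hp)

end Proof

/-- Let `F₁, …, F_s` be nonsingular integral forms of degree `k ≥ 3` in disjoint sets of `n i ≥ 1`
variables, `s ≥ 2 k + 2`, and `X_a : ∑ aᵢ Fᵢ(yᵢ) = 0`. One hundred percent of the everywhere locally
soluble `X_a` have the approximation property for zero-cycles of every degree, to a precision `m(H)`
tending to infinity with the height `H`. -/
theorem result (k s : ℕ) (n : Fin s → ℕ) (F : ∀ i, MvPolynomial (Fin (n i)) ℤ) (hk : 3 ≤ k)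
    (hs : 2 * k + 2 ≤ s) (hn : ∀ i, 1 ≤ n i) (hF : ∀ i, (F i).IsHomogeneous k ∧ Nonsingular (F i)) :
    ∃ m : ℕ → ℕ, Tendsto m atTop atTop ∧
      Tendsto (fun H : ℕ => (({a | a ∈ elsSet F H ∧ CycleApproximation F (m H) a} :
          Set (Fin s → ℤ)).ncard : ℝ) / ((elsSet F H).ncard : ℝ)) atTop (𝓝 1) := by
  obtain ⟨r', rfl⟩ : ∃ r', s = r' + 2 := ⟨s - 2, by omega⟩
  have hA : Pool.Agent.H888.SF.Adm k (r' + 2) n F := ⟨hn, fun i => (hF i).1, fun i => (hF i).2⟩
  have hset : ∀ H : ℕ, elsSet F H = Pool.Agent.H888.SF.elsF F H := by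
    intro H
    ext a
    exact and_congr_right (fun _ => els_iff (fun i => (hF i).1) a)
  refine Pool.Agent.H888.SF.tend_of_fixed
    (fun m H => (({a | a ∈ elsSet F H ∧ CycleApproximation F m a} : Set (Fin (r' + 2) → ℤ)).ncard : ℝ) /
      ((elsSet F H).ncard : ℝ)) (fun j ε hε => ?_)
  simp only [hset]
  exact Pool.Agent.H888.SF.ratio_of_bound hA hk hs (j + 2) (by omega) ε hε
    (fun _ a => CycleApproximation F (j + 2) a) (fun H a ha h => approx_of_wa (fun i => (hF i).1)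
      ((els_iff (fun i => (hF i).1) a).mpr ha.2) h)

end Pool.Agent.Results.MP_bd895b_nt.ZeroCyclesSumsOfForms100
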